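import Pool.Agent.Results.MP_677f70_an.LogMajorant

/-!
For every dimension `n ≥ 2` and every real number `e > 0` there is an unbounded domain `D ⊆ ℝ^n` such
that `|x| (log⁺ |x|)^b` has a harmonic majorant on `D` for all `0 ≤ b < e`, while
`|x_1| (log⁺ |x_1|)^a` has none for any `a > e`.
-/

set_option autoImplicit false

namespace Pool.Agent.Y61.LP

open Set Filter Topology InnerProductSpace Laplacian
open Pool.Agent.Results.MP_677f70_an.LogMajorant (zet zet_apply zet_re' abs_zet_im ht hs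
  continuous_ht continuous_hs hs_nonneg norm_le_sum abs_castSucc_le ax ht_ax ax_castSucc hs_ax
  harmonicAt_comp_zet harmonicAt_sum max_principle slit_of_re log_re_pos im_mul_arg_le
  le_im_mul_arg arg_abs_lt)

/-! ### Powers of the logarithm -/

/-- real part of `z (log z)^p` -/
noncomputable def FF (p : ℝ) (z : ℂ) : ℝ :=
  (z * Complex.exp ((p : ℂ) * Complex.log (Complex.log z))).re

theorem harmonic_FF (p : ℝ) {z : ℂ} (hz : 1 < z.re) : HarmonicAt (FF p) z := by
  apply AnalyticAt.harmonicAt_re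
  have h1 : AnalyticAt ℂ Complex.log z := analyticAt_clog (slit_of_re (by linarith))
  have h2 : AnalyticAt ℂ (fun z => Complex.log (Complex.log z)) z :=
    h1.clog (slit_of_re (log_re_pos hz))
  exact analyticAt_id.mul (analyticAt_const.mul h2).cexp

theorem taylor {p : ℝ} (hp : 1 ≤ p) {ζ : ℂ} (h : ‖ζ‖ ≤ 1 / (2 * p)) :
    ‖Complex.exp ((p : ℂ) * Complex.log (1 + ζ)) - 1 - (p : ℂ) * ζ‖ ≤ 5 * p ^ 2 * ‖ζ‖ ^ 2 := by
  have hp0 : 0 < p := by linarith
  have h0 : ‖ζ‖ ≤ 1 / 2 := h.trans (by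
    rw [div_le_div_iff₀ (by positivity) (by norm_num)]
    linarith)
  have hn := norm_nonneg ζ
  have h1 : ‖Complex.log (1 + ζ) - ζ‖ ≤ ‖ζ‖ ^ 2 := by
    refine (Complex.norm_log_one_add_sub_self_le (by linarith)).trans ?_
    have h2 : (1 - ‖ζ‖)⁻¹ ≤ 2 := by
      rw [inv_le_comm₀ (by linarith) (by norm_num)]
      linarith
    have h3 : ‖ζ‖ ^ 2 * (1 - ‖ζ‖)⁻¹ ≤ ‖ζ‖ ^ 2 * 2 := mul_le_mul_of_nonneg_left h2 (by positivity)
    linarith
  have h2 : ‖Complex.log (1 + ζ)‖ ≤ 2 * ‖ζ‖ := by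
    have h3 : ‖Complex.log (1 + ζ)‖ ≤ ‖Complex.log (1 + ζ) - ζ‖ + ‖ζ‖ := by
      have := norm_add_le (Complex.log (1 + ζ) - ζ) ζ
      rwa [sub_add_cancel] at this
    nlinarith
  obtain ⟨u, hu⟩ : ∃ u : ℂ, u = (p : ℂ) * Complex.log (1 + ζ) := ⟨_, rfl⟩
  have hun : ‖u‖ ≤ 2 * p * ‖ζ‖ := by
    rw [hu, norm_mul, Complex.norm_real, Real.norm_of_nonneg hp0.le]
    nlinarith
  have hu1 : ‖u‖ ≤ 1 := by
    refine hun.trans ?_
    have h3 := mul_le_mul_of_nonneg_left h (show (0 : ℝ) ≤ 2 * p by positivity)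
    have h4 : 2 * p * (1 / (2 * p)) = 1 := by field_simp
    linarith
  have h5 := Complex.norm_exp_sub_one_sub_id_le hu1
  rw [← hu]
  have h6 : Complex.exp u - 1 - (p : ℂ) * ζ =
      (Complex.exp u - 1 - u) + (p : ℂ) * (Complex.log (1 + ζ) - ζ) := by
    rw [mul_sub, ← hu]
    ring
  rw [h6]
  refine (norm_add_le _ _).trans ?_
  have h7 : ‖(p : ℂ) * (Complex.log (1 + ζ) - ζ)‖ ≤ p * ‖ζ‖ ^ 2 := by
    rw [norm_mul, Complex.norm_real, Real.norm_of_nonneg hp0.le]
    exact mul_le_mul_of_nonneg_left h1 hp0.le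
  have h8 : ‖u‖ ^ 2 ≤ (2 * p * ‖ζ‖) ^ 2 := pow_le_pow_left₀ (norm_nonneg _) hun 2
  have h9 : p * ‖ζ‖ ^ 2 ≤ p ^ 2 * ‖ζ‖ ^ 2 := by
    apply mul_le_mul_of_nonneg_right _ (by positivity)
    nlinarith
  nlinarith

theorem core {p K q : ℝ} {z : ℂ} (hp : 1 ≤ p) (hK : 1 ≤ K) (hq : 1 ≤ q) (hy : 3 ≤ z.re)
    (hL : Real.log z.re = q ^ 4) (hs' : |z.im| ≤ K * (z.re * q ^ 4))
    (hq2 : 2 * p * (K + 6) ≤ q ^ 3) :
    |FF p z - (z.re * (q ^ 4) ^ p - p * (Real.pi / 2) * |z.im| * (q ^ 4) ^ (p - 1))| ≤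
      (p * (K + 6) + (1 + K) * (5 * p ^ 2) * (K + 6) ^ 2) / q ^ 2 * (z.re * (q ^ 4) ^ p) := by
  have hp0 : 0 < p := by linarith
  have hq0 : 0 < q := by linarith
  obtain ⟨y, hyd⟩ : ∃ y, y = z.re := ⟨_, rfl⟩
  have hy0 : 0 < y := by linarith
  have hq4 : 1 ≤ q ^ 4 := one_le_pow₀ hq
  have hz0 : z ≠ 0 := by
    rintro rfl
    rw [Complex.zero_re] at hy
    linarith
  have hzn : ‖z‖ ≤ (1 + K) * (y * q ^ 4) := by
    refine (Complex.norm_le_abs_re_add_abs_im z).trans ?_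
    rw [← hyd] at hs' ⊢
    rw [abs_of_pos hy0]
    nlinarith
  have hzy : y ≤ ‖z‖ := by
    rw [hyd]
    exact Complex.re_le_norm z
  obtain ⟨l, hl⟩ : ∃ l : ℂ, l = Complex.log z - ((q ^ 4 : ℝ) : ℂ) := ⟨_, rfl⟩
  have hlre : l.re = Real.log ‖z‖ - q ^ 4 := by
    rw [hl, Complex.sub_re, Complex.log_re, Complex.ofReal_re]
  have hlim : l.im = Complex.arg z := by
    rw [hl, Complex.sub_im, Complex.log_im, Complex.ofReal_im, sub_zero]
  have ha0 : 0 ≤ l.re := by
    rw [hlre, ← hL, ← hyd, sub_nonneg]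
    exact Real.log_le_log hy0 hzy
  have ha1 : l.re ≤ (K + 4) * q := by
    have h1 : Real.log ‖z‖ ≤ Real.log ((1 + K) * (y * q ^ 4)) :=
      Real.log_le_log (by linarith) hzn
    rw [Real.log_mul (by positivity) (by positivity), Real.log_mul (by positivity) (by positivity),
      Real.log_pow, hyd, hL] at h1
    have h2 : Real.log (1 + K) ≤ K := by
      have := Real.log_le_sub_one_of_pos (show 0 < 1 + K by linarith)
      linarith
    have h3 : Real.log q ≤ q := by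
      have := Real.log_le_sub_one_of_pos hq0
      linarith
    rw [hlre]
    push_cast at h1
    nlinarith
  have hb : |l.im| ≤ 2 * q := by
    rw [hlim]
    have h1 := arg_abs_lt (z := z) (by linarith)
    have h2 := Real.pi_le_four
    linarith
  have hln : ‖l‖ ≤ (K + 6) * q := by
    refine (Complex.norm_le_abs_re_add_abs_im l).trans ?_
    rw [abs_of_nonneg ha0]
    linarith
  obtain ⟨ζ, hζ⟩ : ∃ ζ : ℂ, ζ = l / ((q ^ 4 : ℝ) : ℂ) := ⟨_, rfl⟩
  have hq4c : ((q ^ 4 : ℝ) : ℂ) ≠ 0 := by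
    rw [Complex.ofReal_ne_zero]
    positivity
  have hζn : ‖ζ‖ ≤ (K + 6) / q ^ 3 := by
    rw [hζ, norm_div, Complex.norm_real, Real.norm_of_nonneg (by positivity),
      div_le_div_iff₀ (by positivity) (by positivity)]
    calc ‖l‖ * q ^ 3 ≤ (K + 6) * q * q ^ 3 := mul_le_mul_of_nonneg_right hln (by positivity)
      _ = (K + 6) * q ^ 4 := by ring
  have hζ1 : ‖ζ‖ ≤ 1 / (2 * p) := by
    refine hζn.trans ?_
    rw [div_le_div_iff₀ (by positivity) (by positivity)]
    linarith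
  have hζ2 : ‖ζ‖ < 1 := by
    refine lt_of_le_of_lt hζ1 ?_
    rw [div_lt_one (by positivity)]
    linarith
  have hone : (1 : ℂ) + ζ ≠ 0 := by
    intro h0
    have h1 : ζ = -1 := by linear_combination h0
    rw [h1, norm_neg, norm_one] at hζ2
    exact lt_irrefl _ hζ2
  have hlog : Complex.log z = ((q ^ 4 : ℝ) : ℂ) * (1 + ζ) := by
    rw [hζ, mul_add, mul_one, mul_div_cancel₀ _ hq4c, hl]
    ring
  obtain ⟨P, hP⟩ : ∃ P : ℝ, P = (q ^ 4) ^ p := ⟨_, rfl⟩
  have hP0 : 0 < P := by rw [hP]; positivity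
  have hPm : (q ^ 4) ^ (p - 1) = P / q ^ 4 := by
    rw [Real.rpow_sub_one (by positivity), hP]
  have hexp : Complex.exp ((p : ℂ) * Complex.log (Complex.log z)) =
      (P : ℂ) * Complex.exp ((p : ℂ) * Complex.log (1 + ζ)) := by
    rw [hlog, Complex.log_ofReal_mul (by positivity) hone, mul_add, Complex.exp_add, hP,
      Real.rpow_def_of_pos (by positivity), Complex.ofReal_exp]
    congr 2
    push_cast
    ring
  obtain ⟨ξ, hξ⟩ : ∃ ξ : ℂ, ξ = Complex.exp ((p : ℂ) * Complex.log (1 + ζ)) - 1 - (p : ℂ) * ζ :=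
    ⟨_, rfl⟩
  have hξn : ‖ξ‖ ≤ 5 * p ^ 2 * ((K + 6) / q ^ 3) ^ 2 := by
    rw [hξ]
    exact (taylor hp hζ1).trans (mul_le_mul_of_nonneg_left
      (pow_le_pow_left₀ (norm_nonneg _) hζn 2) (by positivity))
  have hF : FF p z = P * (y + p * ((z * l).re / q ^ 4) + (z * ξ).re) := by
    unfold FF
    rw [hexp]
    have h1 : z * ((P : ℂ) * Complex.exp ((p : ℂ) * Complex.log (1 + ζ))) =
        ((P : ℝ) : ℂ) * (z + ((p / q ^ 4 : ℝ) : ℂ) * (z * l) + z * ξ) := by
      rw [hξ, hζ]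
      push_cast
      field_simp
      ring
    rw [h1, Complex.re_ofReal_mul, Complex.add_re, Complex.add_re, Complex.re_ofReal_mul, hyd]
    ring
  have hzl : (z * l).re = y * l.re - z.im * Complex.arg z := by
    rw [Complex.mul_re, hlim, hyd]
  have hE1 : 0 ≤ (z * l).re + Real.pi / 2 * |z.im| := by
    rw [hzl]
    have h1 := im_mul_arg_le (z := z) (by linarith)
    have h2 := mul_nonneg hy0.le ha0
    linarith
  have hE2 : (z * l).re + Real.pi / 2 * |z.im| ≤ y * ((K + 6) * q) := by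
    rw [hzl]
    have h1 := le_im_mul_arg (z := z) (by linarith)
    have h2 := mul_le_mul_of_nonneg_left ha1 hy0.le
    rw [← hyd] at h1
    nlinarith
  have hX : |(z * ξ).re| ≤ (1 + K) * (y * q ^ 4) * (5 * p ^ 2 * ((K + 6) / q ^ 3) ^ 2) := by
    refine (Complex.abs_re_le_norm _).trans ?_
    rw [norm_mul]
    exact mul_le_mul hzn hξn (norm_nonneg _) (by positivity)
  rw [hPm, ← hP, ← hyd, hF]
  have h1 : P * (y + p * ((z * l).re / q ^ 4) + (z * ξ).re) -
      (y * P - p * (Real.pi / 2) * |z.im| * (P / q ^ 4)) =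
      P * (p / q ^ 4 * ((z * l).re + Real.pi / 2 * |z.im|) + (z * ξ).re) := by
    field_simp
    ring
  rw [h1, abs_mul, abs_of_pos hP0]
  have h2 : |p / q ^ 4 * ((z * l).re + Real.pi / 2 * |z.im|) + (z * ξ).re| ≤
      p / q ^ 4 * (y * ((K + 6) * q)) +
        (1 + K) * (y * q ^ 4) * (5 * p ^ 2 * ((K + 6) / q ^ 3) ^ 2) := by
    refine (abs_add_le _ _).trans (add_le_add ?_ hX)
    rw [abs_of_nonneg (mul_nonneg (by positivity) hE1)]
    exact mul_le_mul_of_nonneg_left hE2 (by positivity)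
  refine (mul_le_mul_of_nonneg_left h2 hP0.le).trans ?_
  have h3 : p / q ^ 4 * (y * ((K + 6) * q)) ≤ p * (K + 6) / q ^ 2 * y := by
    have h4 : p / q ^ 4 * (y * ((K + 6) * q)) = p * (K + 6) * y / q ^ 3 := by
      field_simp
    have h5 : p * (K + 6) / q ^ 2 * y = p * (K + 6) * y / q ^ 2 := by ring
    rw [h4, h5]
    apply div_le_div_of_nonneg_left (by positivity) (by positivity)
    exact pow_le_pow_right₀ hq (by norm_num)
  have h6 : (1 + K) * (y * q ^ 4) * (5 * p ^ 2 * ((K + 6) / q ^ 3) ^ 2) =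
      (1 + K) * (5 * p ^ 2) * (K + 6) ^ 2 / q ^ 2 * y := by
    field_simp
  rw [h6]
  have h7 : (p * (K + 6) + (1 + K) * (5 * p ^ 2) * (K + 6) ^ 2) / q ^ 2 * (y * P) =
      P * (p * (K + 6) / q ^ 2 * y + (1 + K) * (5 * p ^ 2) * (K + 6) ^ 2 / q ^ 2 * y) := by
    ring
  rw [h7]
  exact mul_le_mul_of_nonneg_left (by linarith) hP0.le

/-- The asymptotics of `FF`. -/
theorem est {p K η : ℝ} (hp : 1 ≤ p) (hK : 1 ≤ K) (hη : 0 < η) :
    ∃ Y : ℝ, 3 ≤ Y ∧ ∀ z : ℂ, Y ≤ z.re → |z.im| ≤ K * (z.re * Real.log z.re) →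
      |FF p z - (z.re * Real.log z.re ^ p -
        p * (Real.pi / 2) * |z.im| * Real.log z.re ^ (p - 1))| ≤
        η * (z.re * Real.log z.re ^ p) := by
  obtain ⟨c, hc⟩ : ∃ c : ℝ, c = p * (K + 6) + (1 + K) * (5 * p ^ 2) * (K + 6) ^ 2 := ⟨_, rfl⟩
  have hc0 : 0 ≤ c := by rw [hc]; positivity
  obtain ⟨Q, hQ⟩ : ∃ Q : ℝ, Q = 1 + c / η + 2 * p * (K + 6) := ⟨_, rfl⟩
  have hQ1 : 1 ≤ Q := by
    rw [hQ]
    have : 0 ≤ c / η := by positivity
    have : 0 ≤ 2 * p * (K + 6) := by positivity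
    linarith
  refine ⟨max 3 (Real.exp (Q ^ 4)), le_max_left _ _, fun z hz hs' => ?_⟩
  have hz3 : 3 ≤ z.re := (le_max_left _ _).trans hz
  have hzQ : Real.exp (Q ^ 4) ≤ z.re := (le_max_right _ _).trans hz
  have hL : Q ^ 4 ≤ Real.log z.re := by
    rw [Real.le_log_iff_exp_le (by linarith)]
    exact hzQ
  have hL0 : 0 ≤ Real.log z.re := le_trans (by positivity) hL
  obtain ⟨q, hq⟩ : ∃ q : ℝ, q = Real.sqrt (Real.sqrt (Real.log z.re)) := ⟨_, rfl⟩
  have hq4 : Real.log z.re = q ^ 4 := by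
    rw [hq, show (4 : ℕ) = 2 * 2 by norm_num, pow_mul, Real.sq_sqrt (Real.sqrt_nonneg _),
      Real.sq_sqrt hL0]
  have hq0 : 0 ≤ q := by rw [hq]; exact Real.sqrt_nonneg _
  have hqQ : Q ≤ q := by
    rw [hq4] at hL
    exact le_of_pow_le_pow_left₀ (by norm_num) hq0 hL
  have hq1 : 1 ≤ q := hQ1.trans hqQ
  rw [hq4] at hs' ⊢
  refine (core hp hK hq1 hz3 hq4 hs' ?_).trans ?_
  · have h1 : q ≤ q ^ 3 := le_self_pow₀ hq1 (by norm_num)
    have : 0 ≤ c / η := by positivity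
    linarith
  · rw [← hc]
    apply mul_le_mul_of_nonneg_right _ (by positivity)
    rw [div_le_iff₀ (by positivity)]
    have h1 : q ≤ q ^ 2 := le_self_pow₀ hq1 (by norm_num)
    have h2 : c / η ≤ q ^ 2 := by
      have : 0 ≤ 2 * p * (K + 6) := by positivity
      linarith
    rw [div_le_iff₀ hη] at h2
    linarith

/-! ### The domain -/

/-- The domain: `x_n > 3` and `π (1 + e) (|x_1| + ... + |x_{n-1}|) < 2 (n-1) x_n log x_n`. -/
def Dm (k : ℕ) (e : ℝ) : Set (EuclideanSpace ℝ (Fin (k+2))) :=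
  {x | 3 < ht x ∧ Real.pi * (1 + e) * hs x < 2 * ((k : ℝ) + 1) * (ht x * Real.log (ht x))}

/-- the closed version of the domain -/
def Rm (k : ℕ) (e : ℝ) : Set (EuclideanSpace ℝ (Fin (k+2))) :=
  {x | 3 ≤ ht x ∧ Real.pi * (1 + e) * hs x ≤ 2 * ((k : ℝ) + 1) * (ht x * Real.log (ht x))}

theorem continuous_yl (k : ℕ) : Continuous fun x : EuclideanSpace ℝ (Fin (k+2)) =>
    2 * ((k : ℝ) + 1) * (ht x * Real.log (ht x)) :=
  continuous_const.mul (Real.continuous_mul_log.comp (continuous_ht k))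

theorem isOpen_Dm (k : ℕ) (e : ℝ) : IsOpen (Dm k e) :=
  (isOpen_lt continuous_const (continuous_ht k)).inter
    (isOpen_lt (continuous_const.mul (continuous_hs k)) (continuous_yl k))

theorem isClosed_Rm (k : ℕ) (e : ℝ) : IsClosed (Rm k e) :=
  (isClosed_le continuous_const (continuous_ht k)).inter
    (isClosed_le (continuous_const.mul (continuous_hs k)) (continuous_yl k))

theorem Dm_sub (k : ℕ) (e : ℝ) : Dm k e ⊆ Rm k e := fun _ hx => ⟨hx.1.le, hx.2.le⟩

theorem one_le_log {y : ℝ} (hy : 3 ≤ y) : 1 ≤ Real.log y := by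
  rw [Real.le_log_iff_exp_le (by linarith)]
  have := Real.exp_one_lt_d9
  linarith

theorem ax_mem {k : ℕ} {e t : ℝ} (ht' : 3 < t) : ax k t ∈ Dm k e := by
  refine ⟨by rw [ht_ax]; exact ht', ?_⟩
  rw [ht_ax, hs_ax, mul_zero]
  have h1 := one_le_log ht'.le
  have h2 : 0 < t := by linarith
  have h3 : 0 < Real.log t := by linarith
  positivity

theorem not_isBounded_Dm (k : ℕ) (e : ℝ) : ¬ Bornology.IsBounded (Dm k e) := by
  intro hb
  obtain ⟨R, hR⟩ := hb.exists_norm_le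
  have h1 := hR _ (ax_mem (k := k) (e := e) (t := 3 + |R| + 1) (by linarith [abs_nonneg R]))
  have h2 : ‖ax k (3 + |R| + 1)‖ = |3 + |R| + 1| := by
    rw [ax, PiLp.norm_single, Real.norm_eq_abs]
  rw [h2, abs_of_pos (by linarith [abs_nonneg R])] at h1
  linarith [le_abs_self R]

theorem isConnected_Dm (k : ℕ) {e : ℝ} (he : 0 < e) : IsConnected (Dm k e) := by
  have hbase : ax k 4 ∈ Dm k e := ax_mem (by norm_num)
  have hc0 : 0 ≤ Real.pi * (1 + e) := by
    have := Real.pi_pos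
    positivity
  have key : ∀ x ∈ Dm k e, JoinedIn (Dm k e) (ax k 4) x := by
    intro x hx
    have hx1 : 3 < ht x := hx.1
    have h1 : JoinedIn (Dm k e) (ax k 4) (ax k (ht x)) := by
      apply JoinedIn.of_segment_subset
      intro z hz
      obtain ⟨a, b, ha, hb, hab, rfl⟩ := hz
      have : a • ax k 4 + b • ax k (ht x) = ax k (a * 4 + b * ht x) := by
        ext j
        by_cases hj : j = Fin.last (k+1)
        · subst hj; simp [ax]
        · simp [ax, hj]
      rw [this]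
      apply ax_mem
      rcases ha.lt_or_eq with h | h
      · have e2 : b * 3 ≤ b * ht x := mul_le_mul_of_nonneg_left hx1.le hb
        linarith
      · have hb1 : b = 1 := by linarith
        rw [← h, hb1]
        linarith
    have h2 : JoinedIn (Dm k e) (ax k (ht x)) x := by
      apply JoinedIn.of_segment_subset
      intro z hz
      obtain ⟨a, b, ha, hb, hab, rfl⟩ := hz
      have e1 : ht (a • ax k (ht x) + b • x) = ht x := by
        have : ht (a • ax k (ht x) + b • x) = a * ht (ax k (ht x)) + b * ht x := by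
          simp [ht]
        rw [this, ht_ax, ← add_mul, hab, one_mul]
      have e2 : hs (a • ax k (ht x) + b • x) ≤ hs x := by
        unfold hs
        apply Finset.sum_le_sum
        intro i _
        have : (a • ax k (ht x) + b • x) i.castSucc = b * x i.castSucc := by
          have h3 := ax_castSucc k (ht x) i
          simp [h3]
        rw [this, abs_mul, abs_of_nonneg hb]
        have hb1 : b ≤ 1 := by linarith
        nlinarith [abs_nonneg (x i.castSucc)]
      exact ⟨by rw [e1]; exact hx.1, by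
        rw [e1]
        exact (mul_le_mul_of_nonneg_left e2 hc0).trans_lt hx.2⟩
    exact h1.trans h2
  have hp : IsPathConnected (Dm k e) := ⟨ax k 4, hbase, fun {y} hy => key y hy⟩
  exact hp.isConnected

theorem Rm_hs {k : ℕ} {e : ℝ} (he : 0 < e) {x : EuclideanSpace ℝ (Fin (k+2))} (hx : x ∈ Rm k e) :
    hs x ≤ ((k : ℝ) + 1) * (ht x * Real.log (ht x)) := by
  have h1 := hx.2
  have h2 : 2 * hs x ≤ Real.pi * (1 + e) * hs x := by
    apply mul_le_mul_of_nonneg_right _ (hs_nonneg x)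
    have := Real.pi_gt_three
    nlinarith
  linarith

theorem bdd {k : ℕ} {e : ℝ} (he : 0 < e) (T : ℝ) :
    Bornology.IsBounded (Rm k e ∩ {x | ht x ≤ T}) := by
  refine (Metric.isBounded_closedBall (x := (0 : EuclideanSpace ℝ (Fin (k+2))))
    (r := ((k : ℝ) + 1) * (|T| * |T|) + |T|)).subset ?_
  intro x hx
  rw [mem_closedBall_zero_iff]
  have h1 := norm_le_sum x
  have h2 : 3 ≤ ht x := hx.1.1
  have h3 : ht x ≤ T := hx.2
  have h4 := Rm_hs he hx.1
  have hT : 0 < T := by linarith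
  rw [abs_of_pos hT]
  rw [abs_of_pos (by linarith)] at h1
  have h5 : Real.log (ht x) ≤ ht x := (Real.log_le_sub_one_of_pos (by linarith)).trans (by linarith)
  have h6 : ht x * Real.log (ht x) ≤ ht x * ht x := mul_le_mul_of_nonneg_left h5 (by linarith)
  have h7 : ht x * ht x ≤ T * T := by nlinarith
  have h8 : ((k : ℝ) + 1) * (ht x * Real.log (ht x)) ≤ ((k : ℝ) + 1) * (T * T) :=
    mul_le_mul_of_nonneg_left (h6.trans h7) (by positivity)
  linarith

theorem bound {k : ℕ} {e : ℝ} (he : 0 < e) (T : ℝ) {f : EuclideanSpace ℝ (Fin (k+2)) → ℝ}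
    (hf : ∀ x, 1 < ht x → ContinuousAt f x) :
    ∃ C : ℝ, 0 ≤ C ∧ ∀ x ∈ Rm k e, ht x ≤ T → |f x| ≤ C := by
  have hc : IsCompact (Rm k e ∩ {x | ht x ≤ T}) := Metric.isCompact_of_isClosed_isBounded
    ((isClosed_Rm k e).inter (isClosed_le (continuous_ht k) continuous_const)) (bdd he T)
  obtain ⟨C, hC⟩ := hc.exists_bound_of_continuousOn (f := f) (fun x hx =>
    (hf x (by linarith [hx.1.1])).continuousWithinAt)
  refine ⟨max C 0, le_max_right _ _, fun x hx hT => ?_⟩
  have := hC x ⟨hx, hT⟩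
  rw [Real.norm_eq_abs] at this
  exact this.trans (le_max_left _ _)

/-- the sum of the functions `FF p` of the complex variables `x_n - i x_j` -/
noncomputable def GG (k : ℕ) (p : ℝ) : EuclideanSpace ℝ (Fin (k+2)) → ℝ :=
  fun x => ∑ i : Fin (k+1), FF p (zet k i x)

theorem harmonic_GG {k : ℕ} (p : ℝ) {x : EuclideanSpace ℝ (Fin (k+2))} (hx : 1 < ht x) :
    HarmonicAt (GG k p) x := by
  apply harmonicAt_sum
  intro i _
  exact harmonicAt_comp_zet k i (FF p) x (harmonic_FF p (by rw [zet_re']; exact hx))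

theorem estG {k : ℕ} {e c η : ℝ} (he : 0 < e) (hc : 0 ≤ c) (hη : 0 < η) :
    ∃ Y : ℝ, 3 ≤ Y ∧ ∀ x ∈ Rm k e, Y ≤ ht x →
      |GG k (1 + c) x - (((k : ℝ) + 1) * (ht x * (Real.log (ht x) * Real.log (ht x) ^ c)) -
        (1 + c) * (Real.pi / 2) * hs x * Real.log (ht x) ^ c)| ≤
        η * (((k : ℝ) + 1) * (ht x * (Real.log (ht x) * Real.log (ht x) ^ c))) ∧
      |FF (1 + c) (zet k 0 x) - (ht x * (Real.log (ht x) * Real.log (ht x) ^ c) -
        (1 + c) * (Real.pi / 2) * |x 0| * Real.log (ht x) ^ c)| ≤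
        η * (ht x * (Real.log (ht x) * Real.log (ht x) ^ c)) := by
  have hk : (0 : ℝ) ≤ k := Nat.cast_nonneg k
  obtain ⟨Y, hY3, hY⟩ := est (p := 1 + c) (K := (k : ℝ) + 1) (η := η) (by linarith) (by linarith) hη
  refine ⟨Y, hY3, fun x hx hxY => ?_⟩
  have hL0 : 0 < Real.log (ht x) := by linarith [one_le_log hx.1]
  have h1 : ∀ i : Fin (k+1), |FF (1 + c) (zet k i x) -
      (ht x * (Real.log (ht x) * Real.log (ht x) ^ c) -
        (1 + c) * (Real.pi / 2) * |x i.castSucc| * Real.log (ht x) ^ c)| ≤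
        η * (ht x * (Real.log (ht x) * Real.log (ht x) ^ c)) := by
    intro i
    have h2 := hY (zet k i x) (by rw [zet_re']; exact hxY) (by
      rw [abs_zet_im, zet_re']
      exact (abs_castSucc_le x i).trans (Rm_hs he hx))
    rw [zet_re', abs_zet_im, Real.rpow_add hL0, Real.rpow_one,
      show 1 + c - 1 = c by ring] at h2
    exact h2
  refine ⟨?_, h1 0⟩
  have h3 : GG k (1 + c) x - (((k : ℝ) + 1) * (ht x * (Real.log (ht x) * Real.log (ht x) ^ c)) -
        (1 + c) * (Real.pi / 2) * hs x * Real.log (ht x) ^ c) =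
      ∑ i : Fin (k+1), (FF (1 + c) (zet k i x) -
      (ht x * (Real.log (ht x) * Real.log (ht x) ^ c) -
        (1 + c) * (Real.pi / 2) * |x i.castSucc| * Real.log (ht x) ^ c)) := by
    rw [Finset.sum_sub_distrib, Finset.sum_sub_distrib, Finset.sum_const, Finset.card_univ,
      Fintype.card_fin, nsmul_eq_mul, ← Finset.sum_mul, ← Finset.mul_sum]
    unfold GG hs
    push_cast
    ring
  rw [h3]
  refine (Finset.abs_sum_le_sum_abs _ _).trans ((Finset.sum_le_sum fun i _ => h1 i).trans ?_)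
  rw [Finset.sum_const, Finset.card_univ, Fintype.card_fin, nsmul_eq_mul]
  push_cast
  exact le_of_eq (by ring)

/-! ### The harmonic majorants -/

theorem major {k : ℕ} {e b : ℝ} (he : 0 < e) (hb : 0 ≤ b) (hbe : b < e) :
    ∃ h : EuclideanSpace ℝ (Fin (k+2)) → ℝ, HarmonicOnNhd h (Dm k e) ∧
      ∀ x ∈ Dm k e, ‖x‖ * Real.posLog ‖x‖ ^ b ≤ h x := by
  have hk : (0 : ℝ) ≤ k := Nat.cast_nonneg k
  obtain ⟨K, hK⟩ : ∃ K : ℝ, K = (k : ℝ) + 1 := ⟨_, rfl⟩
  have hK1 : 1 ≤ K := by linarith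
  obtain ⟨ρ, hρ⟩ : ∃ ρ : ℝ, ρ = (1 + b) / (1 + e) := ⟨_, rfl⟩
  have hρ1 : ρ < 1 := by
    rw [hρ, div_lt_one (by linarith)]
    linarith
  obtain ⟨Y, hY3, hY⟩ := estG (k := k) (c := b) (η := (1 - ρ) / 2) he hb (by linarith)
  obtain ⟨Λ, hΛ⟩ : ∃ Λ : ℝ, Λ = (K + 1) * (K + 2) ^ b * 2 / (K * (1 - ρ)) := ⟨_, rfl⟩
  have hρ2 : 0 < 1 - ρ := by linarith
  have hΛ0 : 0 ≤ Λ := by rw [hΛ]; positivity
  obtain ⟨C, hC0, hC⟩ := bound (k := k) he Y
    (f := fun x => ‖x‖ * Real.posLog ‖x‖ ^ b - Λ * GG k (1 + b) x) (by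
      intro x hx
      have h1 : Continuous fun x : EuclideanSpace ℝ (Fin (k+2)) => ‖x‖ * Real.posLog ‖x‖ ^ b :=
        continuous_norm.mul ((Real.continuous_posLog.comp continuous_norm).rpow_const
          (fun _ => Or.inr hb))
      exact h1.continuousAt.sub ((harmonic_GG (1 + b) hx).1.continuousAt.const_mul Λ))
  refine ⟨(Λ • GG k (1 + b)) + fun _ => C, fun x hx => ?_, fun x hx => ?_⟩
  · exact ((harmonic_GG (1 + b) (by linarith [hx.1])).const_smul).add (harmonicAt_const _)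
  · change _ ≤ Λ * GG k (1 + b) x + C
    have hxR := Dm_sub k e hx
    by_cases hxY : ht x ≤ Y
    · have h1 := (le_abs_self _).trans (hC x hxR hxY)
      linarith
    · push Not at hxY
      have h1 := (hY x hxR hxY.le).1
      obtain ⟨y, hy⟩ : ∃ y, y = ht x := ⟨_, rfl⟩
      have hy3 : 3 ≤ y := by rw [hy]; exact hxR.1
      have hL1 := one_le_log hy3
      have h2 := norm_le_sum x
      have h3 := Rm_hs he hxR
      have h4 := hxR.2
      rw [← hy] at h1 h2 h3 h4
      obtain ⟨L, hL⟩ : ∃ L, L = Real.log y := ⟨_, rfl⟩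
      rw [← hL, ← hK] at h1 h3 h4
      rw [← hL] at hL1
      rw [abs_of_pos (by linarith)] at h2
      obtain ⟨Lb, hLb⟩ : ∃ Lb, Lb = L ^ b := ⟨_, rfl⟩
      have hLb0 : 0 < Lb := by rw [hLb]; positivity
      rw [← hLb] at h1
      have hS := hs_nonneg x
      have hpi := Real.pi_pos
      -- lower bound for `GG`
      have h5 : (1 + b) * (Real.pi / 2) * hs x * Lb ≤ ρ * (K * (y * (L * Lb))) := by
        have h6 : Real.pi / 2 * hs x ≤ K * (y * L) / (1 + e) := by
          rw [le_div_iff₀ (by linarith)]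
          linarith
        calc (1 + b) * (Real.pi / 2) * hs x * Lb = (Real.pi / 2 * hs x) * ((1 + b) * Lb) := by ring
          _ ≤ (K * (y * L) / (1 + e)) * ((1 + b) * Lb) :=
            mul_le_mul_of_nonneg_right h6 (by positivity)
          _ = ρ * (K * (y * (L * Lb))) := by rw [hρ]; ring
      have h7 : (1 - ρ) / 2 * (K * (y * (L * Lb))) ≤ GG k (1 + b) x := by
        have := (abs_le.1 h1).1
        linarith
      -- upper bound for the norm
      have hyL : y ≤ y * L := by nlinarith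
      have h8 : ‖x‖ ≤ (K + 1) * (y * L) := by linarith
      have hlog : Real.log ‖x‖ ≤ (K + 2) * L := by
        rcases (norm_nonneg x).lt_or_eq with h9 | h9
        · have h10 := Real.log_le_log h9 h8
          rw [Real.log_mul (by positivity) (by positivity), Real.log_mul (by positivity)
            (by positivity), ← hL] at h10
          have h11 : Real.log (K + 1) ≤ K := by
            have := Real.log_le_sub_one_of_pos (show 0 < K + 1 by linarith)
            linarith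
          have h12 : Real.log L ≤ L := by
            have := Real.log_le_sub_one_of_pos (show 0 < L by linarith)
            linarith
          nlinarith
        · rw [← h9, Real.log_zero]
          positivity
      have hpos : Real.posLog ‖x‖ ≤ (K + 2) * L := by
        unfold Real.posLog
        exact max_le (by positivity) hlog
      have h13 : Real.posLog ‖x‖ ^ b ≤ (K + 2) ^ b * Lb := by
        rw [hLb, ← Real.mul_rpow (by linarith) (by linarith)]
        exact Real.rpow_le_rpow Real.posLog_nonneg hpos hb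
      have h14 : ‖x‖ * Real.posLog ‖x‖ ^ b ≤ (K + 1) * (y * L) * ((K + 2) ^ b * Lb) :=
        mul_le_mul h8 h13 (Real.rpow_nonneg Real.posLog_nonneg _) (by positivity)
      have h15 : (K + 1) * (y * L) * ((K + 2) ^ b * Lb) =
          Λ * ((1 - ρ) / 2 * (K * (y * (L * Lb)))) := by
        rw [hΛ]
        field_simp
      have h16 := mul_le_mul_of_nonneg_left h7 hΛ0
      linarith

/-! ### No harmonic majorants -/

/-- the function of the problem -/
noncomputable def uu {k : ℕ} (a : ℝ) (x : EuclideanSpace ℝ (Fin (k+2))) : ℝ :=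
  |x 0| * Real.posLog |x 0| ^ a

theorem continuous_uu {k : ℕ} {a : ℝ} (ha : 0 ≤ a) : Continuous (uu (k := k) a) := by
  unfold uu
  have h1 : Continuous fun x : EuclideanSpace ℝ (Fin (k+2)) => |x 0| := by fun_prop
  exact h1.mul ((Real.continuous_posLog.comp h1).rpow_const (fun _ => Or.inr ha))

theorem uu_nonneg {k : ℕ} (a : ℝ) (x : EuclideanSpace ℝ (Fin (k+2))) : 0 ≤ uu a x :=
  mul_nonneg (abs_nonneg _) (Real.rpow_nonneg Real.posLog_nonneg _)

/-- The truncated domains. -/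
def DT (k : ℕ) (e T : ℝ) : Set (EuclideanSpace ℝ (Fin (k+2))) := Dm k e ∩ {x | ht x < T}

theorem isOpen_DT (k : ℕ) (e T : ℝ) : IsOpen (DT k e T) :=
  (isOpen_Dm k e).inter (isOpen_lt (continuous_ht k) continuous_const)

theorem closure_DT {k : ℕ} {e T : ℝ} {x : EuclideanSpace ℝ (Fin (k+2))}
    (hx : x ∈ closure (DT k e T)) : x ∈ Rm k e ∧ ht x ≤ T := by
  have hcl : IsClosed (Rm k e ∩ {x | ht x ≤ T}) :=
    (isClosed_Rm k e).inter (isClosed_le (continuous_ht k) continuous_const)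
  have hsub : DT k e T ⊆ Rm k e ∩ {x | ht x ≤ T} := fun z hz =>
    ⟨Dm_sub k e hz.1, (show ht z < T from hz.2).le⟩
  exact closure_minimal hsub hcl hx

theorem frontier_DT {k : ℕ} {e T : ℝ} {x : EuclideanSpace ℝ (Fin (k+2))}
    (hx : x ∈ frontier (DT k e T)) :
    x ∈ Rm k e ∧ (ht x = 3 ∨ ht x = T ∨
      Real.pi * (1 + e) * hs x = 2 * ((k : ℝ) + 1) * (ht x * Real.log (ht x))) := by
  rw [(isOpen_DT k e T).frontier_eq] at hx
  obtain ⟨h1, h2⟩ := closure_DT hx.1
  refine ⟨h1, ?_⟩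
  by_contra hcon
  push Not at hcon
  apply hx.2
  exact ⟨⟨lt_of_le_of_ne h1.1 (Ne.symm hcon.1), lt_of_le_of_ne h1.2 hcon.2.2⟩,
    lt_of_le_of_ne h2 hcon.2.1⟩

/-- domination of functions on the frontier gives domination inside -/
theorem dominate {k : ℕ} {e T : ℝ} (he : 0 < e) {u v h : EuclideanSpace ℝ (Fin (k+2)) → ℝ}
    (hu : Continuous u) (hv : ∀ x, 1 < ht x → HarmonicAt v x) (hh : HarmonicOnNhd h (Dm k e))
    (hmaj : ∀ x ∈ Dm k e, u x ≤ h x) (hf : ∀ x ∈ frontier (DT k e T), v x ≤ u x) :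
    ∀ x ∈ DT k e T, v x ≤ h x := by
  have hv' : ∀ z ∈ closure (DT k e T), HarmonicAt v z := by
    intro z hz
    exact hv z (by linarith [(closure_DT hz).1.1])
  have hb : Bornology.IsBounded (DT k e T) := (bdd he T).subset fun z hz =>
    ⟨Dm_sub k e hz.1, (show ht z < T from hz.2).le⟩
  refine max_principle (isOpen_DT k e T) hb (v := v) (h := h)
    (ψ := fun z => v z - u z) (fun z hz => hv' z (subset_closure hz))
    (hh.mono inter_subset_left) ?_ ?_ ?_
  · intro z hz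
    exact ((hv' z hz).1.continuousAt.sub hu.continuousAt).continuousWithinAt
  · intro z hz
    have := hf z hz
    show v z - u z ≤ 0
    linarith
  · intro z hz
    have := hmaj z hz.1
    show v z - h z ≤ v z - u z
    linarith

theorem small_side {κ y L s a : ℝ} (hκ : 0 ≤ κ) (ha : 0 ≤ a) (hy : 3 ≤ y) (hL : L = Real.log y)
    (hκL : 4 * κ ≤ L) (hs0 : 0 ≤ s) :
    κ * s * L ^ a ≤ 1 / 4 * (y * (L * L ^ a)) + κ * (s * Real.posLog s ^ a) := by
  have hL1 : 1 ≤ L := by rw [hL]; exact one_le_log hy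
  have hLa : 0 ≤ L ^ a := Real.rpow_nonneg (by linarith) _
  rcases le_total y s with h | h
  · have h1 : L ≤ Real.posLog s := by
      rw [hL]
      unfold Real.posLog
      exact (Real.log_le_log (by linarith) h).trans (le_max_right _ _)
    have h2 : L ^ a ≤ Real.posLog s ^ a := Real.rpow_le_rpow (by linarith) h1 ha
    have h3 : κ * s * L ^ a ≤ κ * (s * Real.posLog s ^ a) := by
      rw [mul_assoc]
      exact mul_le_mul_of_nonneg_left (mul_le_mul_of_nonneg_left h2 hs0) hκ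
    have h4 : 0 ≤ 1 / 4 * (y * (L * L ^ a)) := by positivity
    linarith
  · have h1 : κ * s * L ^ a ≤ κ * y * L ^ a :=
      mul_le_mul_of_nonneg_right (mul_le_mul_of_nonneg_left h hκ) hLa
    have h2 : 4 * κ * (y * L ^ a) ≤ L * (y * L ^ a) := mul_le_mul_of_nonneg_right hκL (by positivity)
    have h3 : 0 ≤ κ * (s * Real.posLog s ^ a) :=
      mul_nonneg hκ (mul_nonneg hs0 (Real.rpow_nonneg Real.posLog_nonneg _))
    nlinarith

theorem minor {k : ℕ} {e a : ℝ} (he : 0 < e) (hae : e < a) :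
    ¬ ∃ h : EuclideanSpace ℝ (Fin (k+2)) → ℝ, HarmonicOnNhd h (Dm k e) ∧
      ∀ x ∈ Dm k e, uu a x ≤ h x := by
  rintro ⟨h, hh, hmaj⟩
  have ha : 0 ≤ a := by linarith
  have hk : (0 : ℝ) ≤ k := Nat.cast_nonneg k
  have hpi := Real.pi_pos
  obtain ⟨K, hK⟩ : ∃ K : ℝ, K = (k : ℝ) + 1 := ⟨_, rfl⟩
  have hK1 : 1 ≤ K := by linarith
  obtain ⟨c, hc⟩ : ∃ c : ℝ, c = (a + e) / 2 := ⟨_, rfl⟩
  have hce : e < c := by linarith
  have hca : c < a := by linarith
  have hc0 : 0 ≤ c := by linarith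
  obtain ⟨ρ, hρ⟩ : ∃ ρ : ℝ, ρ = (1 + c) / (1 + e) := ⟨_, rfl⟩
  have hρ1 : 1 < ρ := by
    rw [hρ, one_lt_div (by linarith)]
    linarith
  obtain ⟨η, hη⟩ : ∃ η : ℝ, η = min ((ρ - 1) / 2) (1 / 2) := ⟨_, rfl⟩
  have hη0 : 0 < η := by rw [hη]; exact lt_min (by linarith) (by norm_num)
  have hη1 : η ≤ (ρ - 1) / 2 := by rw [hη]; exact min_le_left _ _
  have hη2 : η ≤ 1 / 2 := by rw [hη]; exact min_le_right _ _
  obtain ⟨Y₁, hY₁3, hY₁⟩ := estG (k := k) (c := c) (η := η) he hc0 hη0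
  obtain ⟨Y₂, hY₂3, hY₂⟩ := estG (k := k) (c := a) (η := 1 / 4) he ha (by norm_num)
  obtain ⟨κ, hκ⟩ : ∃ κ : ℝ, κ = (1 + a) * (Real.pi / 2) := ⟨_, rfl⟩
  have hκ0 : 0 < κ := by rw [hκ]; positivity
  obtain ⟨Y, hY⟩ : ∃ Y : ℝ, Y = max (max Y₁ Y₂) (Real.exp (4 * κ)) := ⟨_, rfl⟩
  have hYY₁ : Y₁ ≤ Y := by rw [hY]; exact (le_max_left _ _).trans (le_max_left _ _)
  have hYY₂ : Y₂ ≤ Y := by rw [hY]; exact (le_max_right _ _).trans (le_max_left _ _)
  have hYe : Real.exp (4 * κ) ≤ Y := by rw [hY]; exact le_max_right _ _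
  obtain ⟨C₁, hC₁0, hC₁⟩ := bound (k := k) he Y (f := GG k (1 + c))
    (fun x hx => (harmonic_GG (1 + c) hx).1.continuousAt)
  have hFh : ∀ x : EuclideanSpace ℝ (Fin (k+2)), 1 < ht x →
      HarmonicAt (fun x => FF (1 + a) (zet k 0 x)) x := fun x hx =>
    harmonicAt_comp_zet k 0 (FF (1 + a)) x (harmonic_FF (1 + a) (by rw [zet_re']; exact hx))
  obtain ⟨C₂, hC₂0, hC₂⟩ := bound (k := k) he Y (f := fun x => FF (1 + a) (zet k 0 x))
    (fun x hx => (hFh x hx).1.continuousAt)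
  obtain ⟨v, hv⟩ : ∃ v : ℝ → EuclideanSpace ℝ (Fin (k+2)) → ℝ, v = fun M =>
      κ⁻¹ • (((-(fun x => FF (1 + a) (zet k 0 x))) + fun _ => -C₂) +
        M • (GG k (1 + c) + fun _ => -C₁)) := ⟨_, rfl⟩
  have hva : ∀ M x, v M x = κ⁻¹ * ((-FF (1 + a) (zet k 0 x) + -C₂) +
      M * (GG k (1 + c) x + -C₁)) := fun M x => by rw [hv]; rfl
  have hvh : ∀ M x, 1 < ht x → HarmonicAt (v M) x := by
    intro M x hx
    rw [hv]
    exact (((hFh x hx).neg.add (harmonicAt_const _)).add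
      (((harmonic_GG (1 + c) hx).add (harmonicAt_const _)).const_smul)).const_smul
  -- the comparison on the frontier
  have hfr : ∀ T : ℝ, Y < T → ∀ x ∈ frontier (DT k e T),
      v (Real.log T ^ (a - c) / (4 * K)) x ≤ uu a x := by
    intro T hT x hx
    obtain ⟨hxR, hcase⟩ := frontier_DT hx
    have hLT : 0 < Real.log T := by linarith [one_le_log (hY₁3.trans (hYY₁.trans hT.le))]
    obtain ⟨M, hM⟩ : ∃ M : ℝ, M = Real.log T ^ (a - c) / (4 * K) := ⟨_, rfl⟩
    have hM0 : 0 ≤ M := by rw [hM]; positivity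
    rw [← hM, hva, inv_mul_le_iff₀ hκ0]
    have hu0 := uu_nonneg a x
    by_cases hxY : ht x ≤ Y
    · have h1 := (abs_le.1 (hC₂ x hxR hxY)).1
      have h2 := (abs_le.1 (hC₁ x hxR hxY)).2
      have h3 : M * (GG k (1 + c) x + -C₁) ≤ 0 :=
        mul_nonpos_of_nonneg_of_nonpos hM0 (by linarith)
      have h4 : 0 ≤ κ * uu a x := by positivity
      linarith
    · push Not at hxY
      have hE1 := (hY₁ x hxR (hYY₁.trans hxY.le)).1
      have hE2 := (hY₂ x hxR (hYY₂.trans hxY.le)).2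
      obtain ⟨y, hy⟩ : ∃ y, y = ht x := ⟨_, rfl⟩
      have hy3 : 3 ≤ y := by rw [hy]; exact hxR.1
      have hR2 := hxR.2
      rw [← hy] at hE1 hE2 hR2 hcase hxY
      obtain ⟨L, hL⟩ : ∃ L, L = Real.log y := ⟨_, rfl⟩
      have hL1 : 1 ≤ L := by rw [hL]; exact one_le_log hy3
      have hκL : 4 * κ ≤ L := by
        rw [hL, Real.le_log_iff_exp_le (by linarith)]
        linarith
      rw [← hL] at hE1 hE2 hR2 hcase
      rw [← hK] at hE1 hR2 hcase
      have hside := small_side (s := |x 0|) hκ0.le ha hy3 hL hκL (abs_nonneg _)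
      have hside' : κ * |x 0| * L ^ a ≤ 1 / 4 * (y * (L * L ^ a)) + κ * uu a x := hside
      rw [← hκ] at hE2
      have hF := (abs_le.1 hE2).1
      have hG := (abs_le.1 hE1).2
      have hS := hs_nonneg x
      have hLc : 0 < L ^ c := by positivity
      have hLa : 0 < L ^ a := by positivity
      have hW : 0 ≤ y * (L * L ^ a) := by positivity
      have hMG : M * (GG k (1 + c) x + -C₁) ≤ 3 / 8 * (y * (L * L ^ a)) := by
        rcases hcase with h0 | h0 | h0
        · linarith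
        · -- top
          have h1 : GG k (1 + c) x + -C₁ ≤ 3 / 2 * (K * (y * (L * L ^ c))) := by
            have h2 : 0 ≤ (1 + c) * (Real.pi / 2) * hs x * L ^ c := by positivity
            have h3 : η * (K * (y * (L * L ^ c))) ≤ 1 / 2 * (K * (y * (L * L ^ c))) :=
              mul_le_mul_of_nonneg_right hη2 (by positivity)
            linarith
          have hML : M = L ^ (a - c) / (4 * K) := by rw [hM, hL, h0]
          calc M * (GG k (1 + c) x + -C₁) ≤ M * (3 / 2 * (K * (y * (L * L ^ c)))) :=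
                mul_le_mul_of_nonneg_left h1 hM0
            _ = 3 / 8 * (y * (L * (L ^ (a - c) * L ^ c))) := by
                rw [hML]
                field_simp
                ring
            _ = 3 / 8 * (y * (L * L ^ a)) := by
                rw [← Real.rpow_add (by linarith), sub_add_cancel]
        · -- side
          have h1 : GG k (1 + c) x ≤ 0 := by
            have h2 : (1 + c) * (Real.pi / 2) * hs x * L ^ c = ρ * (K * (y * (L * L ^ c))) := by
              have h3 : Real.pi / 2 * hs x = K * (y * L) / (1 + e) := by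
                rw [eq_div_iff (by linarith)]
                linarith
              calc (1 + c) * (Real.pi / 2) * hs x * L ^ c =
                  (Real.pi / 2 * hs x) * ((1 + c) * L ^ c) := by ring
                _ = ρ * (K * (y * (L * L ^ c))) := by rw [h3, hρ]; ring
            have h4 : 0 ≤ (ρ - 1 - η) * (K * (y * (L * L ^ c))) := by
              apply mul_nonneg (by linarith) (by positivity)
            linarith
          have h5 : M * (GG k (1 + c) x + -C₁) ≤ 0 :=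
            mul_nonpos_of_nonneg_of_nonpos hM0 (by linarith)
          linarith
      linarith
  -- the point on the axis
  obtain ⟨t₀, ht₀⟩ : ∃ t₀ : ℝ, t₀ = Y + 2 * (C₁ + 1) := ⟨_, rfl⟩
  have ht₀Y : Y < t₀ := by linarith
  have ht₀3 : 3 < t₀ := by linarith
  obtain ⟨x₀, hx₀⟩ : ∃ x₀ : EuclideanSpace ℝ (Fin (k+2)), x₀ = ax k t₀ := ⟨_, rfl⟩
  have hx₀h : ht x₀ = t₀ := by rw [hx₀, ht_ax]
  have hx₀D : x₀ ∈ Dm k e := by rw [hx₀]; exact ax_mem ht₀3
  have hG1 : 1 ≤ GG k (1 + c) x₀ + -C₁ := by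
    have h1 := (abs_le.1 (hY₁ x₀ (Dm_sub k e hx₀D) (by rw [hx₀h]; linarith)).1).1
    have h2 : hs x₀ = 0 := by rw [hx₀, hs_ax]
    rw [hx₀h, h2, ← hK] at h1
    have hL1 := one_le_log ht₀3.le
    have h3 : 1 ≤ Real.log t₀ ^ c := Real.one_le_rpow hL1 hc0
    have h4 : t₀ ≤ K * (t₀ * (Real.log t₀ * Real.log t₀ ^ c)) := by
      have h5 : 1 ≤ Real.log t₀ * Real.log t₀ ^ c := one_le_mul_of_one_le_of_one_le hL1 h3
      have h6 : t₀ ≤ t₀ * (Real.log t₀ * Real.log t₀ ^ c) := by nlinarith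
      nlinarith
    have h7 : η * (K * (t₀ * (Real.log t₀ * Real.log t₀ ^ c))) ≤
        1 / 2 * (K * (t₀ * (Real.log t₀ * Real.log t₀ ^ c))) :=
      mul_le_mul_of_nonneg_right hη2 (by linarith)
    simp only [mul_zero, zero_mul, sub_zero] at h1
    linarith
  -- the contradiction
  have hlim : Tendsto (fun T : ℝ => Real.log T ^ (a - c) / (4 * K)) atTop atTop := by
    apply Tendsto.atTop_div_const (by positivity)
    exact (tendsto_rpow_atTop (by linarith)).comp Real.tendsto_log_atTop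
  obtain ⟨T, hT1, hT2⟩ := ((hlim.eventually_gt_atTop
    (κ * h x₀ + FF (1 + a) (zet k 0 x₀) + C₂)).and (eventually_gt_atTop t₀)).exists
  have h1 := dominate (T := T) he (continuous_uu ha) (hvh _) hh hmaj
    (hfr T (ht₀Y.trans hT2)) x₀ ⟨hx₀D, by show ht x₀ < T; rw [hx₀h]; exact hT2⟩
  rw [hva, inv_mul_le_iff₀ hκ0] at h1
  have hM0 : 0 ≤ Real.log T ^ (a - c) / (4 * K) := by
    have : 0 < Real.log T := by linarith [one_le_log (ht₀3.le.trans hT2.le)]
    positivity
  have h2 : Real.log T ^ (a - c) / (4 * K) ≤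
      Real.log T ^ (a - c) / (4 * K) * (GG k (1 + c) x₀ + -C₁) := by
    nlinarith
  linarith

end Pool.Agent.Y61.LP
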