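import Pool.Agent.Y61.LP.Base

/-! Asymptotics of `Re (z (log z)^p log log z)`. -/

set_option autoImplicit false

namespace Pool.Agent.Y61.LP

open Set Filter Topology InnerProductSpace Laplacian
open Pool.Agent.Results.MP_677f70_an.LogMajorant (zet zet_apply zet_re' abs_zet_im ht hs
  continuous_ht continuous_hs hs_nonneg norm_le_sum abs_castSucc_le ax ht_ax ax_castSucc hs_ax
  harmonicAt_comp_zet harmonicAt_sum max_principle slit_of_re log_re_pos im_mul_arg_le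
  le_im_mul_arg arg_abs_lt)

/-- real part of `z (log z)^p log log z` -/
noncomputable def HH (p : ℝ) (z : ℂ) : ℝ :=
  (z * (Complex.exp ((p : ℂ) * Complex.log (Complex.log z)) * Complex.log (Complex.log z))).re

theorem harmonic_HH (p : ℝ) {z : ℂ} (hz : 1 < z.re) : HarmonicAt (HH p) z := by
  apply AnalyticAt.harmonicAt_re
  have h1 : AnalyticAt ℂ Complex.log z := analyticAt_clog (slit_of_re (by linarith))
  have h2 : AnalyticAt ℂ (fun z => Complex.log (Complex.log z)) z :=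
    h1.clog (slit_of_re (log_re_pos hz))
  exact analyticAt_id.mul ((analyticAt_const.mul h2).cexp.mul h2)

/-- the size of the logarithm -/
theorem data {K q : ℝ} {z : ℂ} (hK : 1 ≤ K) (hq : 1 ≤ q) (hy : 3 ≤ z.re)
    (hL : Real.log z.re = q ^ 4) (hs' : |z.im| ≤ K * (z.re * q ^ 4)) :
    ∃ ζ : ℂ, ‖ζ‖ ≤ (K + 6) / q ^ 3 ∧ Complex.log z = ((q ^ 4 : ℝ) : ℂ) * (1 + ζ) ∧
      |(z * ζ).re + Real.pi / 2 * |z.im| / q ^ 4| ≤ z.re * ((K + 6) / q ^ 3) ∧
      ‖z‖ ≤ (1 + K) * (z.re * q ^ 4) := by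
  have hq0 : 0 < q := by linarith
  obtain ⟨y, hyd⟩ : ∃ y, y = z.re := ⟨_, rfl⟩
  have hy0 : 0 < y := by linarith
  have hq4 : 1 ≤ q ^ 4 := one_le_pow₀ hq
  have hz0 : z ≠ 0 := by
    rintro rfl
    rw [Complex.zero_re] at hy
    linarith
  have hzn : ‖z‖ ≤ (1 + K) * (y * q ^ 4) := by
    refine (Complex.norm_le_abs_re_add_abs_im z).trans ?_
    rw [← hyd] at hs' ⊢
    rw [abs_of_pos hy0]
    nlinarith
  have hzy : y ≤ ‖z‖ := by
    rw [hyd]
    exact Complex.re_le_norm z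
  obtain ⟨l, hl⟩ : ∃ l : ℂ, l = Complex.log z - ((q ^ 4 : ℝ) : ℂ) := ⟨_, rfl⟩
  have hlre : l.re = Real.log ‖z‖ - q ^ 4 := by
    rw [hl, Complex.sub_re, Complex.log_re, Complex.ofReal_re]
  have hlim : l.im = Complex.arg z := by
    rw [hl, Complex.sub_im, Complex.log_im, Complex.ofReal_im, sub_zero]
  have ha0 : 0 ≤ l.re := by
    rw [hlre, ← hL, ← hyd, sub_nonneg]
    exact Real.log_le_log hy0 hzy
  have ha1 : l.re ≤ (K + 4) * q := by
    have h1 : Real.log ‖z‖ ≤ Real.log ((1 + K) * (y * q ^ 4)) :=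
      Real.log_le_log (by linarith) hzn
    rw [Real.log_mul (by positivity) (by positivity), Real.log_mul (by positivity) (by positivity),
      Real.log_pow, hyd, hL] at h1
    have h2 : Real.log (1 + K) ≤ K := by
      have := Real.log_le_sub_one_of_pos (show 0 < 1 + K by linarith)
      linarith
    have h3 : Real.log q ≤ q := by
      have := Real.log_le_sub_one_of_pos hq0
      linarith
    rw [hlre]
    push_cast at h1
    nlinarith
  have hb : |l.im| ≤ 2 * q := by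
    rw [hlim]
    have h1 := arg_abs_lt (z := z) (by linarith)
    have h2 := Real.pi_le_four
    linarith
  have hln : ‖l‖ ≤ (K + 6) * q := by
    refine (Complex.norm_le_abs_re_add_abs_im l).trans ?_
    rw [abs_of_nonneg ha0]
    linarith
  obtain ⟨ζ, hζ⟩ : ∃ ζ : ℂ, ζ = l / ((q ^ 4 : ℝ) : ℂ) := ⟨_, rfl⟩
  have hq4c : ((q ^ 4 : ℝ) : ℂ) ≠ 0 := by
    rw [Complex.ofReal_ne_zero]
    positivity
  have hζn : ‖ζ‖ ≤ (K + 6) / q ^ 3 := by
    rw [hζ, norm_div, Complex.norm_real, Real.norm_of_nonneg (by positivity),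
      div_le_div_iff₀ (by positivity) (by positivity)]
    calc ‖l‖ * q ^ 3 ≤ (K + 6) * q * q ^ 3 := mul_le_mul_of_nonneg_right hln (by positivity)
      _ = (K + 6) * q ^ 4 := by ring
  have hlog : Complex.log z = ((q ^ 4 : ℝ) : ℂ) * (1 + ζ) := by
    rw [hζ, mul_add, mul_one, mul_div_cancel₀ _ hq4c, hl]
    ring
  refine ⟨ζ, hζn, hlog, ?_, by rw [← hyd]; exact hzn⟩
  have hzl : (z * l).re = y * l.re - z.im * Complex.arg z := by
    rw [Complex.mul_re, hlim, hyd]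
  have hE1 : 0 ≤ (z * l).re + Real.pi / 2 * |z.im| := by
    rw [hzl]
    have h1 := im_mul_arg_le (z := z) (by linarith)
    have h2 := mul_nonneg hy0.le ha0
    linarith
  have hE2 : (z * l).re + Real.pi / 2 * |z.im| ≤ y * ((K + 6) * q) := by
    rw [hzl]
    have h1 := le_im_mul_arg (z := z) (by linarith)
    have h2 := mul_le_mul_of_nonneg_left ha1 hy0.le
    rw [← hyd] at h1
    nlinarith
  have hzζ : (z * ζ).re = (z * l).re / q ^ 4 := by
    rw [hζ, ← mul_div_assoc, Complex.div_ofReal_re]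
  rw [hzζ, ← add_div, abs_of_nonneg (div_nonneg hE1 (by positivity)), ← hyd,
    div_le_iff₀ (by positivity)]
  refine hE2.trans (le_of_eq ?_)
  field_simp

theorem taylor2 {p : ℝ} (hp : 1 ≤ p) {ζ : ℂ} (h : ‖ζ‖ ≤ 1 / (2 * p)) :
    ‖Complex.exp ((p : ℂ) * Complex.log (1 + ζ)) * Complex.log (1 + ζ) - ζ‖ ≤
      9 * p * ‖ζ‖ ^ 2 := by
  have hp0 : 0 < p := by linarith
  have h0 : ‖ζ‖ ≤ 1 / 2 := h.trans (by
    rw [div_le_div_iff₀ (by positivity) (by norm_num)]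
    linarith)
  have hn := norm_nonneg ζ
  have h1 : ‖Complex.log (1 + ζ) - ζ‖ ≤ ‖ζ‖ ^ 2 := by
    refine (Complex.norm_log_one_add_sub_self_le (by linarith)).trans ?_
    have h2 : (1 - ‖ζ‖)⁻¹ ≤ 2 := by
      rw [inv_le_comm₀ (by linarith) (by norm_num)]
      linarith
    have h3 : ‖ζ‖ ^ 2 * (1 - ‖ζ‖)⁻¹ ≤ ‖ζ‖ ^ 2 * 2 := mul_le_mul_of_nonneg_left h2 (by positivity)
    linarith
  have h2 : ‖Complex.log (1 + ζ)‖ ≤ 2 * ‖ζ‖ := by
    have h3 : ‖Complex.log (1 + ζ)‖ ≤ ‖Complex.log (1 + ζ) - ζ‖ + ‖ζ‖ := by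
      have := norm_add_le (Complex.log (1 + ζ) - ζ) ζ
      rwa [sub_add_cancel] at this
    nlinarith
  obtain ⟨w, hw⟩ : ∃ w : ℂ, w = Complex.log (1 + ζ) := ⟨_, rfl⟩
  rw [← hw] at h1 h2 ⊢
  obtain ⟨u, hu⟩ : ∃ u : ℂ, u = (p : ℂ) * w := ⟨_, rfl⟩
  have hun : ‖u‖ ≤ 2 * p * ‖ζ‖ := by
    rw [hu, norm_mul, Complex.norm_real, Real.norm_of_nonneg hp0.le]
    nlinarith
  have hu1 : ‖u‖ ≤ 1 := by
    refine hun.trans ?_
    have h3 := mul_le_mul_of_nonneg_left h (show (0 : ℝ) ≤ 2 * p by positivity)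
    have h4 : 2 * p * (1 / (2 * p)) = 1 := by field_simp
    linarith
  have h5 := Complex.norm_exp_sub_one_sub_id_le hu1
  have h6 : ‖Complex.exp u - 1‖ ≤ 2 * ‖u‖ := by
    have h7 : ‖Complex.exp u - 1‖ ≤ ‖Complex.exp u - 1 - u‖ + ‖u‖ := by
      have := norm_add_le (Complex.exp u - 1 - u) u
      rwa [sub_add_cancel] at this
    have h8 : ‖u‖ ^ 2 ≤ ‖u‖ := by nlinarith [norm_nonneg u]
    linarith
  rw [← hu]
  have h7 : Complex.exp u * w - ζ = (Complex.exp u - 1) * w + (w - ζ) := by ring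
  rw [h7]
  refine (norm_add_le _ _).trans ?_
  rw [norm_mul]
  have h8 : ‖Complex.exp u - 1‖ * ‖w‖ ≤ (2 * (2 * p * ‖ζ‖)) * (2 * ‖ζ‖) :=
    mul_le_mul (h6.trans (by linarith)) h2 (norm_nonneg _) (by positivity)
  have h9 : ‖ζ‖ ^ 2 ≤ p * ‖ζ‖ ^ 2 := by nlinarith [sq_nonneg ‖ζ‖]
  nlinarith

theorem coreH {p K q : ℝ} {z : ℂ} (hp : 1 ≤ p) (hK : 1 ≤ K) (hq : 1 ≤ q) (hy : 3 ≤ z.re)
    (hL : Real.log z.re = q ^ 4) (hs' : |z.im| ≤ K * (z.re * q ^ 4))
    (hq2 : 2 * p * (K + 6) ≤ q ^ 3) :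
    |HH p z - (Real.log (q ^ 4) * FF p z - Real.pi / 2 * |z.im| * (q ^ 4) ^ (p - 1))| ≤
      ((K + 6) + (1 + K) * (9 * p) * (K + 6) ^ 2) / q ^ 2 * (z.re * (q ^ 4) ^ p) := by
  have hp0 : 0 < p := by linarith
  have hq0 : 0 < q := by linarith
  obtain ⟨ζ, hζn, hlog, hE, hzn⟩ := data hK hq hy hL hs'
  have hy0 : 0 < z.re := by linarith
  have hζ1 : ‖ζ‖ ≤ 1 / (2 * p) := by
    refine hζn.trans ?_
    rw [div_le_div_iff₀ (by positivity) (by positivity)]
    linarith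
  have hζ2 : ‖ζ‖ < 1 := by
    refine lt_of_le_of_lt hζ1 ?_
    rw [div_lt_one (by positivity)]
    linarith
  have hone : (1 : ℂ) + ζ ≠ 0 := by
    intro h0
    have h1 : ζ = -1 := by linear_combination h0
    rw [h1, norm_neg, norm_one] at hζ2
    exact lt_irrefl _ hζ2
  obtain ⟨P, hP⟩ : ∃ P : ℝ, P = (q ^ 4) ^ p := ⟨_, rfl⟩
  have hP0 : 0 < P := by rw [hP]; positivity
  have hPm : (q ^ 4) ^ (p - 1) = P / q ^ 4 := by
    rw [Real.rpow_sub_one (by positivity), hP]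
  have hll : Complex.log (Complex.log z) = ((Real.log (q ^ 4) : ℝ) : ℂ) + Complex.log (1 + ζ) := by
    rw [hlog, Complex.log_ofReal_mul (by positivity) hone]
  have hexp : Complex.exp ((p : ℂ) * Complex.log (Complex.log z)) =
      (P : ℂ) * Complex.exp ((p : ℂ) * Complex.log (1 + ζ)) := by
    rw [hll, mul_add, Complex.exp_add, hP,
      Real.rpow_def_of_pos (by positivity), Complex.ofReal_exp]
    congr 2
    push_cast
    ring
  obtain ⟨χ, hχ⟩ : ∃ χ : ℂ, χ = Complex.exp ((p : ℂ) * Complex.log (1 + ζ)) *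
      Complex.log (1 + ζ) - ζ := ⟨_, rfl⟩
  have hχn : ‖χ‖ ≤ 9 * p * ((K + 6) / q ^ 3) ^ 2 := by
    rw [hχ]
    exact (taylor2 hp hζ1).trans (mul_le_mul_of_nonneg_left
      (pow_le_pow_left₀ (norm_nonneg _) hζn 2) (by positivity))
  have hF : HH p z = Real.log (q ^ 4) * FF p z + P * ((z * ζ).re + (z * χ).re) := by
    unfold HH FF
    have h1 : z * (Complex.exp ((p : ℂ) * Complex.log (Complex.log z)) *
        Complex.log (Complex.log z)) =
        ((Real.log (q ^ 4) : ℝ) : ℂ) * (z * Complex.exp ((p : ℂ) * Complex.log (Complex.log z))) +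
          ((P : ℝ) : ℂ) * (z * ζ + z * χ) := by
      rw [hexp, hll, hχ]
      ring
    rw [h1, Complex.add_re, Complex.re_ofReal_mul, Complex.re_ofReal_mul, Complex.add_re]
  have hX : |(z * χ).re| ≤ (1 + K) * (z.re * q ^ 4) * (9 * p * ((K + 6) / q ^ 3) ^ 2) := by
    refine (Complex.abs_re_le_norm _).trans ?_
    rw [norm_mul]
    exact mul_le_mul hzn hχn (norm_nonneg _) (by positivity)
  rw [hPm, ← hP, hF]
  have h1 : Real.log (q ^ 4) * FF p z + P * ((z * ζ).re + (z * χ).re) -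
      (Real.log (q ^ 4) * FF p z - Real.pi / 2 * |z.im| * (P / q ^ 4)) =
      P * (((z * ζ).re + Real.pi / 2 * |z.im| / q ^ 4) + (z * χ).re) := by
    ring
  rw [h1, abs_mul, abs_of_pos hP0]
  have h2 : |((z * ζ).re + Real.pi / 2 * |z.im| / q ^ 4) + (z * χ).re| ≤
      z.re * ((K + 6) / q ^ 3) +
        (1 + K) * (z.re * q ^ 4) * (9 * p * ((K + 6) / q ^ 3) ^ 2) :=
    (abs_add_le _ _).trans (add_le_add hE hX)
  refine (mul_le_mul_of_nonneg_left h2 hP0.le).trans ?_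
  have h3 : z.re * ((K + 6) / q ^ 3) ≤ (K + 6) / q ^ 2 * z.re := by
    have h4 : (K + 6) / q ^ 3 ≤ (K + 6) / q ^ 2 := by
      apply div_le_div_of_nonneg_left (by positivity) (by positivity)
      exact pow_le_pow_right₀ hq (by norm_num)
    have h5 := mul_le_mul_of_nonneg_left h4 hy0.le
    linarith
  have h6 : (1 + K) * (z.re * q ^ 4) * (9 * p * ((K + 6) / q ^ 3) ^ 2) =
      (1 + K) * (9 * p) * (K + 6) ^ 2 / q ^ 2 * z.re := by
    field_simp
  rw [h6]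
  have h7 : ((K + 6) + (1 + K) * (9 * p) * (K + 6) ^ 2) / q ^ 2 * (z.re * P) =
      P * ((K + 6) / q ^ 2 * z.re + (1 + K) * (9 * p) * (K + 6) ^ 2 / q ^ 2 * z.re) := by
    ring
  rw [h7]
  exact mul_le_mul_of_nonneg_left (by linarith) hP0.le

/-- the sum of the functions `HH p` -/
noncomputable def HS (k : ℕ) (p : ℝ) : EuclideanSpace ℝ (Fin (k+2)) → ℝ :=
  fun x => ∑ i : Fin (k+1), HH p (zet k i x)

theorem harmonic_HS {k : ℕ} (p : ℝ) {x : EuclideanSpace ℝ (Fin (k+2))} (hx : 1 < ht x) :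
    HarmonicAt (HS k p) x := by
  apply harmonicAt_sum
  intro i _
  exact harmonicAt_comp_zet k i (HH p) x (harmonic_HH p (by rw [zet_re']; exact hx))

/-- precise asymptotics of the sums -/
theorem estS {k : ℕ} {e c : ℝ} (he : 0 < e) (hc : 0 ≤ c) :
    ∃ A Y : ℝ, 0 ≤ A ∧ 3 ≤ Y ∧ ∀ x ∈ Rm k e, Y ≤ ht x →
      |GG k (1 + c) x - (((k : ℝ) + 1) * (ht x * (Real.log (ht x) * Real.log (ht x) ^ c)) -
        (1 + c) * (Real.pi / 2) * hs x * Real.log (ht x) ^ c)| ≤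
        A / Real.sqrt (Real.log (ht x)) *
          (((k : ℝ) + 1) * (ht x * (Real.log (ht x) * Real.log (ht x) ^ c))) ∧
      |HS k (1 + c) x - (Real.log (Real.log (ht x)) * GG k (1 + c) x -
        (Real.pi / 2) * hs x * Real.log (ht x) ^ c)| ≤
        A / Real.sqrt (Real.log (ht x)) *
          (((k : ℝ) + 1) * (ht x * (Real.log (ht x) * Real.log (ht x) ^ c))) := by
  have hk : (0 : ℝ) ≤ k := Nat.cast_nonneg k
  obtain ⟨K, hK⟩ : ∃ K : ℝ, K = (k : ℝ) + 1 := ⟨_, rfl⟩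
  have hK1 : 1 ≤ K := by linarith
  obtain ⟨p, hp⟩ : ∃ p : ℝ, p = 1 + c := ⟨_, rfl⟩
  have hp1 : 1 ≤ p := by linarith
  obtain ⟨A₁, hA₁⟩ : ∃ A : ℝ, A = p * (K + 6) + (1 + K) * (5 * p ^ 2) * (K + 6) ^ 2 := ⟨_, rfl⟩
  obtain ⟨A₂, hA₂⟩ : ∃ A : ℝ, A = (K + 6) + (1 + K) * (9 * p) * (K + 6) ^ 2 := ⟨_, rfl⟩
  have hA₁0 : 0 ≤ A₁ := by rw [hA₁]; positivity
  have hA₂0 : 0 ≤ A₂ := by rw [hA₂]; positivity
  obtain ⟨Q, hQ⟩ : ∃ Q : ℝ, Q = 1 + 2 * p * (K + 6) := ⟨_, rfl⟩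
  have hQ1 : 1 ≤ Q := by
    rw [hQ]
    have : 0 ≤ 2 * p * (K + 6) := by positivity
    linarith
  refine ⟨A₁ + A₂, max 3 (Real.exp (Q ^ 4)), by positivity, le_max_left _ _, fun x hx hxY => ?_⟩
  have hy3 : 3 ≤ ht x := (le_max_left _ _).trans hxY
  have hyQ : Real.exp (Q ^ 4) ≤ ht x := (le_max_right _ _).trans hxY
  have hL : Q ^ 4 ≤ Real.log (ht x) := by
    rw [Real.le_log_iff_exp_le (by linarith)]
    exact hyQ
  have hL1 := one_le_log hy3
  obtain ⟨q, hq⟩ : ∃ q : ℝ, q = Real.sqrt (Real.sqrt (Real.log (ht x))) := ⟨_, rfl⟩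
  have hq2 : q ^ 2 = Real.sqrt (Real.log (ht x)) := by
    rw [hq, Real.sq_sqrt (Real.sqrt_nonneg _)]
  have hq4 : Real.log (ht x) = q ^ 4 := by
    rw [show (4 : ℕ) = 2 * 2 by norm_num, pow_mul, hq2, Real.sq_sqrt (by linarith)]
  have hq0 : 0 ≤ q := by rw [hq]; exact Real.sqrt_nonneg _
  have hqQ : Q ≤ q := by
    rw [hq4] at hL
    exact le_of_pow_le_pow_left₀ (by norm_num) hq0 hL
  have hq1 : 1 ≤ q := hQ1.trans hqQ
  have hq3 : 2 * p * (K + 6) ≤ q ^ 3 := by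
    have h1 : q ≤ q ^ 3 := le_self_pow₀ hq1 (by norm_num)
    linarith
  have hpow : (q ^ 4) ^ p = q ^ 4 * (q ^ 4) ^ c := by
    rw [hp, Real.rpow_add (by positivity), Real.rpow_one]
  have hW : ∀ i : Fin (k+1), |(zet k i x).im| ≤ K * ((zet k i x).re * q ^ 4) := by
    intro i
    rw [abs_zet_im, zet_re', ← hq4, hK]
    exact (abs_castSucc_le x i).trans (Rm_hs he hx)
  have hre : ∀ i : Fin (k+1), 3 ≤ (zet k i x).re := fun i => by rw [zet_re']; exact hy3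
  have hlr : ∀ i : Fin (k+1), Real.log (zet k i x).re = q ^ 4 := fun i => by rw [zet_re', hq4]
  have h1 : ∀ i : Fin (k+1), |FF p (zet k i x) - (ht x * (q ^ 4 * (q ^ 4) ^ c) -
      p * (Real.pi / 2) * |x i.castSucc| * (q ^ 4) ^ c)| ≤
      A₁ / q ^ 2 * (ht x * (q ^ 4 * (q ^ 4) ^ c)) := by
    intro i
    have h2 := core hp1 hK1 hq1 (hre i) (hlr i) (hW i) hq3
    rw [zet_re', abs_zet_im, hpow, show p - 1 = c by rw [hp]; ring, ← hA₁] at h2
    exact h2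
  have h1' : ∀ i : Fin (k+1), |HH p (zet k i x) - (Real.log (q ^ 4) * FF p (zet k i x) -
      Real.pi / 2 * |x i.castSucc| * (q ^ 4) ^ c)| ≤
      A₂ / q ^ 2 * (ht x * (q ^ 4 * (q ^ 4) ^ c)) := by
    intro i
    have h2 := coreH hp1 hK1 hq1 (hre i) (hlr i) (hW i) hq3
    rw [zet_re', abs_zet_im, hpow, show p - 1 = c by rw [hp]; ring, ← hA₂] at h2
    exact h2
  rw [← hq2, hq4, ← hp, ← hK]
  have hy0 : 0 < ht x := by linarith
  have hpos : 0 ≤ K * (ht x * (q ^ 4 * (q ^ 4) ^ c)) := by positivity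
  constructor
  · have h3 : GG k p x - (K * (ht x * (q ^ 4 * (q ^ 4) ^ c)) -
          p * (Real.pi / 2) * hs x * (q ^ 4) ^ c) =
        ∑ i : Fin (k+1), (FF p (zet k i x) - (ht x * (q ^ 4 * (q ^ 4) ^ c) -
          p * (Real.pi / 2) * |x i.castSucc| * (q ^ 4) ^ c)) := by
      rw [Finset.sum_sub_distrib, Finset.sum_sub_distrib, Finset.sum_const, Finset.card_univ,
        Fintype.card_fin, nsmul_eq_mul, ← Finset.sum_mul, ← Finset.mul_sum]
      unfold GG hs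
      push_cast
      rw [← hK]
    rw [h3]
    refine (Finset.abs_sum_le_sum_abs _ _).trans ((Finset.sum_le_sum fun i _ => h1 i).trans ?_)
    rw [Finset.sum_const, Finset.card_univ, Fintype.card_fin, nsmul_eq_mul]
    push_cast
    rw [← hK]
    have h4 : A₁ / q ^ 2 ≤ (A₁ + A₂) / q ^ 2 := by
      apply div_le_div_of_nonneg_right _ (by positivity)
      linarith
    have h5 := mul_le_mul_of_nonneg_right h4 hpos
    linarith
  · have h3 : HS k p x - (Real.log (q ^ 4) * GG k p x - Real.pi / 2 * hs x * (q ^ 4) ^ c) =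
        ∑ i : Fin (k+1), (HH p (zet k i x) - (Real.log (q ^ 4) * FF p (zet k i x) -
          Real.pi / 2 * |x i.castSucc| * (q ^ 4) ^ c)) := by
      rw [Finset.sum_sub_distrib, Finset.sum_sub_distrib, ← Finset.sum_mul, ← Finset.mul_sum,
        ← Finset.mul_sum]
      rfl
    rw [h3]
    refine (Finset.abs_sum_le_sum_abs _ _).trans ((Finset.sum_le_sum fun i _ => h1' i).trans ?_)
    rw [Finset.sum_const, Finset.card_univ, Fintype.card_fin, nsmul_eq_mul]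
    push_cast
    rw [← hK]
    have h4 : A₂ / q ^ 2 ≤ (A₁ + A₂) / q ^ 2 := by
      apply div_le_div_of_nonneg_right _ (by positivity)
      linarith
    have h5 := mul_le_mul_of_nonneg_right h4 hpos
    linarith

end Pool.Agent.Y61.LP
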