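import Pool.Agent.Results.MP_677f70_an.LogMajorant

/-! Harmonic functions and permutations of the coordinates. -/

set_option autoImplicit false

namespace Pool.Agent.Y61.LP

open Set Filter Topology InnerProductSpace Laplacian
open Pool.Agent.Results.MP_677f70_an.LogMajorant (iter2_comp)

/-- permutation of the coordinates -/
noncomputable def pm {n : ℕ} (σ : Fin n ≃ Fin n) :
    EuclideanSpace ℝ (Fin n) ≃ₗᵢ[ℝ] EuclideanSpace ℝ (Fin n) :=
  LinearIsometryEquiv.piLpCongrLeft 2 ℝ ℝ σ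

theorem pm_apply {n : ℕ} (σ : Fin n ≃ Fin n) (x : EuclideanSpace ℝ (Fin n)) (j : Fin n) :
    pm σ x j = x (σ.symm j) := rfl

theorem pm_basis {n : ℕ} (σ : Fin n ≃ Fin n) (j : Fin n) :
    pm σ (EuclideanSpace.basisFun (Fin n) ℝ j) = EuclideanSpace.basisFun (Fin n) ℝ (σ j) := by
  rw [EuclideanSpace.basisFun_apply, EuclideanSpace.basisFun_apply]
  exact LinearIsometryEquiv.piLpCongrLeft_single σ j (1 : ℝ)

theorem harmonicAt_comp_pm {n : ℕ} (σ : Fin n ≃ Fin n) (f : EuclideanSpace ℝ (Fin n) → ℝ)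
    (x : EuclideanSpace ℝ (Fin n)) (hf : HarmonicAt f (pm σ x)) :
    HarmonicAt (fun z => f (pm σ z)) x := by
  obtain ⟨T, hT⟩ : ∃ T : EuclideanSpace ℝ (Fin n) →L[ℝ] EuclideanSpace ℝ (Fin n),
      ∀ z, T z = pm σ z := ⟨(pm σ).toContinuousLinearEquiv.toContinuousLinearMap, fun _ => rfl⟩
  have hfun : (fun z => f (pm σ z)) = f ∘ T := by
    funext z
    rw [Function.comp_apply, hT]
  rw [hfun]
  rw [← hT] at hf
  constructor
  · exact ContDiffAt.comp x hf.1 T.contDiff.contDiffAt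
  · have h1 := T.continuous.continuousAt.eventually hf.eventually
    filter_upwards [h1] with z hz
    have hz1 := hz.1
    have hz2 : Δ f (T z) = 0 := hz.2.self_of_nhds
    rw [laplacian_eq_iteratedFDeriv_orthonormalBasis _ (EuclideanSpace.basisFun (Fin n) ℝ)]
    rw [laplacian_eq_iteratedFDeriv_orthonormalBasis _ (EuclideanSpace.basisFun (Fin n) ℝ)] at hz2
    change ∑ j, iteratedFDeriv ℝ 2 (f ∘ T) z ![EuclideanSpace.basisFun (Fin n) ℝ j,
      EuclideanSpace.basisFun (Fin n) ℝ j] = 0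
    have h3 : ∀ j, iteratedFDeriv ℝ 2 (f ∘ T) z ![EuclideanSpace.basisFun (Fin n) ℝ j,
        EuclideanSpace.basisFun (Fin n) ℝ j] =
        iteratedFDeriv ℝ 2 f (T z) ![EuclideanSpace.basisFun (Fin n) ℝ (σ j),
        EuclideanSpace.basisFun (Fin n) ℝ (σ j)] := by
      intro j
      rw [iter2_comp T f z hz1, hT (EuclideanSpace.basisFun (Fin n) ℝ j), pm_basis]
    rw [Finset.sum_congr rfl fun j _ => h3 j]
    rw [Equiv.sum_comp σ (fun j => iteratedFDeriv ℝ 2 f (T z)
      ![EuclideanSpace.basisFun (Fin n) ℝ j, EuclideanSpace.basisFun (Fin n) ℝ j])]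
    exact hz2

end Pool.Agent.Y61.LP
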