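import Pool.Agent.Y61.LP.CritA
import Pool.Agent.Y61.LP.Sym

/-! The critical exponent. -/

set_option autoImplicit false

namespace Pool.Agent.Y61.LP

open Set Filter Topology InnerProductSpace Laplacian
open Pool.Agent.Results.MP_677f70_an.LogMajorant (zet zet_apply zet_re' abs_zet_im ht hs
  continuous_ht continuous_hs hs_nonneg norm_le_sum abs_castSucc_le ax ht_ax ax_castSucc hs_ax
  harmonicAt_comp_zet harmonicAt_sum max_principle slit_of_re log_re_pos im_mul_arg_le
  le_im_mul_arg arg_abs_lt)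

/-- numerical conditions which hold eventually -/
theorem ev_cond (A δ B : ℝ) (hA : 0 ≤ A) (hδ : 0 < δ) (hδ1 : δ ≤ 1 / 4) (hB : 0 < B) :
    ∀ᶠ L : ℝ in atTop, B ≤ L ∧ B ≤ Real.log L ∧ A / Real.sqrt L * (1 + 2 * Real.log L) ≤ 1 ∧
      A / Real.sqrt L * (L ^ δ + 1) ≤ δ / B := by
  · have h1 : Tendsto (fun L : ℝ => A * (L ^ (-(1 / 2) : ℝ) + 2 * (Real.log L / L ^ (1 / 2 : ℝ))))
        atTop (𝓝 (A * (0 + 2 * 0))) := by
      apply Tendsto.const_mul
      apply Tendsto.add (tendsto_rpow_neg_atTop (by norm_num))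
      apply Tendsto.const_mul
      exact (isLittleO_log_rpow_atTop (by norm_num)).tendsto_div_nhds_zero
    have h2 : Tendsto (fun L : ℝ => A * (L ^ (-(1 / 4) : ℝ) + L ^ (-(1 / 2) : ℝ)))
        atTop (𝓝 (A * (0 + 0))) := by
      apply Tendsto.const_mul
      exact (tendsto_rpow_neg_atTop (by norm_num)).add (tendsto_rpow_neg_atTop (by norm_num))
    rw [show A * (0 + 2 * 0) = 0 by ring] at h1
    rw [show A * ((0 : ℝ) + 0) = 0 by ring] at h2
    have h3 := h1.eventually (gt_mem_nhds (show (0 : ℝ) < 1 by norm_num))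
    have h4 := h2.eventually (gt_mem_nhds (show (0 : ℝ) < δ / B by positivity))
    filter_upwards [h3, h4, eventually_ge_atTop B, Real.tendsto_log_atTop.eventually_ge_atTop B,
      eventually_ge_atTop 1] with L e1 e2 e3 e4 e5
    have hL0 : 0 < L := by linarith
    have hsq : Real.sqrt L = L ^ (1 / 2 : ℝ) := Real.sqrt_eq_rpow L
    have hinv : L ^ (-(1 / 2) : ℝ) = 1 / L ^ (1 / 2 : ℝ) := by
      rw [Real.rpow_neg hL0.le]
      exact (one_div _).symm
    refine ⟨e3, e4, ?_, ?_⟩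
    · rw [hsq]
      rw [hinv] at e1
      refine le_trans (le_of_eq ?_) e1.le
      ring
    · refine le_trans ?_ e2.le
      rw [hsq]
      have h5 : L ^ δ ≤ L ^ (1 / 4 : ℝ) := Real.rpow_le_rpow_of_exponent_le e5 hδ1
      have h6 : L ^ (-(1 / 4) : ℝ) = L ^ (1 / 4 : ℝ) / L ^ (1 / 2 : ℝ) := by
        rw [← Real.rpow_sub hL0]
        norm_num
      rw [h6, hinv]
      have h7 : 0 < L ^ (1 / 2 : ℝ) := by positivity
      calc A / L ^ (1 / 2 : ℝ) * (L ^ δ + 1) ≤ A / L ^ (1 / 2 : ℝ) * (L ^ (1 / 4 : ℝ) + 1) :=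
            mul_le_mul_of_nonneg_left (by linarith) (by positivity)
        _ = A * (L ^ (1 / 4 : ℝ) / L ^ (1 / 2 : ℝ) + 1 / L ^ (1 / 2 : ℝ)) := by ring

/-- the comparison on the frontier: `b` is the main term, `S` the sum of the sides -/
theorem cmp {l τ₀ W S b e G G' H M U L : ℝ} (he : 0 < e) (hl : 4 ≤ l) (hτ₀ : 0 ≤ τ₀)
    (hτ : τ₀ * (1 + 2 * l) ≤ 1) (hW : 0 ≤ W) (hS : 0 ≤ S) (hb0 : 0 ≤ b)
    (hb : b = W - (1 + e) * (Real.pi / 2) * S)
    (hG : |G - b| ≤ τ₀ * W) (hH : |H - (l * G - Real.pi / 2 * S)| ≤ τ₀ * W)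
    (hG' : -(τ₀ * W) ≤ G')
    (hM : 0 ≤ M) (hcase : M ≤ l / 2 ∨ (b = 0 ∧ G - G' ≤ 0))
    (hSU : S ≤ U + W / L) (hL : 4 * (1 + e) * Real.pi ≤ L) (hL2 : 2 * Real.pi * (2 + e) ≤ L)
    (hL3 : 0 < L) :
    -H + M * (G - G') ≤ Real.pi * (2 + e) * U := by
  have hpi := Real.pi_pos
  have hG1 := (abs_le.1 hG).1
  have hG2 := (abs_le.1 hG).2
  have hH1 := (abs_le.1 hH).1
  have hτW : 0 ≤ τ₀ * W := by positivity
  have hτl : τ₀ * W * (1 + 2 * l) ≤ W := by
    have := mul_le_mul_of_nonneg_right hτ hW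
    linarith
  -- first step
  have h1 : -H + M * (G - G') ≤ -(l / 2) * b + Real.pi / 2 * S + τ₀ * W * (1 + 2 * l) := by
    rcases hcase with h | ⟨h, h'⟩
    · have h2 : M * (G - G') ≤ M * G + M * (τ₀ * W) := by
        have := mul_le_mul_of_nonneg_left hG' hM
        linarith
      have h3 : -H ≤ -(l * G) + Real.pi / 2 * S + τ₀ * W := by linarith
      have h4 : (l - M) * (b - τ₀ * W) ≤ (l - M) * G :=
        mul_le_mul_of_nonneg_left (by linarith) (by linarith)
      have h5 : l / 2 * b ≤ (l - M) * b := mul_le_mul_of_nonneg_right (by linarith) hb0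
      have h6 : M * (τ₀ * W) ≤ l / 2 * (τ₀ * W) := mul_le_mul_of_nonneg_right h hτW
      have h7 : 0 ≤ M * (τ₀ * W) := by positivity
      nlinarith
    · have h2 : M * (G - G') ≤ 0 := mul_nonpos_of_nonneg_of_nonpos hM h'
      have h3 : -H ≤ -(l * G) + Real.pi / 2 * S + τ₀ * W := by linarith
      have h4 : l * (-(τ₀ * W)) ≤ l * G := mul_le_mul_of_nonneg_left (by linarith) (by linarith)
      have h5 : 0 ≤ l * (τ₀ * W) := by positivity
      rw [h]
      nlinarith
  -- replace `W`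
  have hWb : W = b + (1 + e) * (Real.pi / 2) * S := by rw [hb]; ring
  have h2 : -H + M * (G - G') ≤ -(l / 2 - 1) * b + Real.pi / 2 * (2 + e) * S := by
    nlinarith
  -- bound of `S`
  have h3 : W / L ≤ b / L + S / 2 := by
    rw [hWb, add_div]
    have h4 : (1 + e) * (Real.pi / 2) * S / L ≤ S / 2 := by
      rw [div_le_iff₀ hL3]
      have := mul_le_mul_of_nonneg_right hL hS
      nlinarith
    linarith
  have h4 : S ≤ 2 * U + 2 * (b / L) := by linarith
  have h5 : Real.pi / 2 * (2 + e) * S ≤ Real.pi / 2 * (2 + e) * (2 * U + 2 * (b / L)) :=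
    mul_le_mul_of_nonneg_left h4 (by positivity)
  have h6 : Real.pi / 2 * (2 + e) * (2 * (b / L)) ≤ b / 2 := by
    have h7 : Real.pi / 2 * (2 + e) * (2 * (b / L)) = Real.pi * (2 + e) * b / L := by ring
    rw [h7, div_le_iff₀ hL3]
    have := mul_le_mul_of_nonneg_right hL2 hb0
    nlinarith
  have h8 : b ≤ (l / 2 - 1) * b := by nlinarith
  nlinarith

/-- the single terms -/
theorem term_le {y L s a : ℝ} (ha : 0 ≤ a) (hy : 3 ≤ y) (hL : L = Real.log y) (hs0 : 0 ≤ s) :
    s * L ^ a ≤ s * Real.posLog s ^ a + y * L ^ a := by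
  have hL1 : 1 ≤ L := by rw [hL]; exact one_le_log hy
  have hLa : 0 ≤ L ^ a := Real.rpow_nonneg (by linarith) _
  rcases le_total y s with h | h
  · have h1 : L ≤ Real.posLog s := by
      rw [hL]
      unfold Real.posLog
      exact (Real.log_le_log (by linarith) h).trans (le_max_right _ _)
    have h2 : L ^ a ≤ Real.posLog s ^ a := Real.rpow_le_rpow (by linarith) h1 ha
    have h3 : s * L ^ a ≤ s * Real.posLog s ^ a := mul_le_mul_of_nonneg_left h2 hs0
    have h4 : 0 ≤ y * L ^ a := by positivity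
    linarith
  · have h1 : s * L ^ a ≤ y * L ^ a := mul_le_mul_of_nonneg_right h hLa
    have h3 : 0 ≤ s * Real.posLog s ^ a :=
      mul_nonneg hs0 (Real.rpow_nonneg Real.posLog_nonneg _)
    linarith

/-- the symmetric function -/
noncomputable def us (k : ℕ) (a : ℝ) (x : EuclideanSpace ℝ (Fin (k+2))) : ℝ :=
  ∑ i : Fin (k+1), |x i.castSucc| * Real.posLog |x i.castSucc| ^ a

theorem continuous_us {k : ℕ} {a : ℝ} (ha : 0 ≤ a) : Continuous (us k a) := by
  unfold us
  refine continuous_finsetSum _ fun i _ => ?_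
  have h1 : Continuous fun x : EuclideanSpace ℝ (Fin (k+2)) => |x i.castSucc| := by fun_prop
  exact h1.mul ((Real.continuous_posLog.comp h1).rpow_const (fun _ => Or.inr ha))

theorem us_nonneg (k : ℕ) (a : ℝ) (x : EuclideanSpace ℝ (Fin (k+2))) : 0 ≤ us k a x :=
  Finset.sum_nonneg fun _ _ => mul_nonneg (abs_nonneg _) (Real.rpow_nonneg Real.posLog_nonneg _)

theorem S_le {k : ℕ} {a y L : ℝ} (ha : 0 ≤ a) (hy : 3 ≤ y) (hL : L = Real.log y)
    (x : EuclideanSpace ℝ (Fin (k+2))) :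
    hs x * L ^ a ≤ us k a x + ((k : ℝ) + 1) * (y * L ^ a) := by
  have h1 : hs x * L ^ a = ∑ i : Fin (k+1), |x i.castSucc| * L ^ a := by
    unfold hs
    rw [Finset.sum_mul]
  rw [h1]
  refine (Finset.sum_le_sum fun i _ => term_le (s := |x i.castSucc|) ha hy hL
    (abs_nonneg _)).trans (le_of_eq ?_)
  rw [Finset.sum_add_distrib, Finset.sum_const, Finset.card_univ, Fintype.card_fin, nsmul_eq_mul]
  push_cast
  rfl

/-- if the first function has a harmonic majorant then so does the symmetric one -/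
theorem symm_major {k : ℕ} {e a : ℝ} (h : EuclideanSpace ℝ (Fin (k+2)) → ℝ)
    (hh : HarmonicOnNhd h (Dm k e)) (hmaj : ∀ x ∈ Dm k e, uu a x ≤ h x) :
    ∃ g : EuclideanSpace ℝ (Fin (k+2)) → ℝ, HarmonicOnNhd g (Dm k e) ∧
      ∀ x ∈ Dm k e, us k a x ≤ g x := by
  obtain ⟨σ, hσ⟩ : ∃ σ : Fin (k+1) → (Fin (k+2) ≃ Fin (k+2)),
      σ = fun i => Equiv.swap (Fin.castSucc 0) (Fin.castSucc i) := ⟨_, rfl⟩
  have hσlast : ∀ i, (σ i).symm (Fin.last (k+1)) = Fin.last (k+1) := by
    intro i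
    rw [hσ]
    dsimp only
    rw [Equiv.symm_swap]
    exact Equiv.swap_apply_of_ne_of_ne (Fin.castSucc_lt_last _).ne' (Fin.castSucc_lt_last _).ne'
  have hσc : ∀ i j : Fin (k+1), (σ i).symm j.castSucc = (Equiv.swap 0 i j).castSucc := by
    intro i j
    rw [hσ]
    dsimp only
    rw [Equiv.symm_swap]
    by_cases h0 : j = 0
    · subst h0
      rw [Equiv.swap_apply_left, Equiv.swap_apply_left]
    · by_cases h1 : j = i
      · subst h1
        rw [Equiv.swap_apply_right, Equiv.swap_apply_right]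
      · rw [Equiv.swap_apply_of_ne_of_ne h0 h1, Equiv.swap_apply_of_ne_of_ne
          (fun h => h0 (Fin.castSucc_injective _ h)) (fun h => h1 (Fin.castSucc_injective _ h))]
  have hht : ∀ i (x : EuclideanSpace ℝ (Fin (k+2))), ht (pm (σ i) x) = ht x := by
    intro i x
    unfold ht
    rw [pm_apply, hσlast]
  have hhs : ∀ i (x : EuclideanSpace ℝ (Fin (k+2))), hs (pm (σ i) x) = hs x := by
    intro i x
    unfold hs
    simp only [pm_apply, hσc]
    exact Equiv.sum_comp (Equiv.swap 0 i) (fun j => |x j.castSucc|)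
  have hD : ∀ i, ∀ x ∈ Dm k e, pm (σ i) x ∈ Dm k e := by
    intro i x hx
    refine ⟨by rw [hht]; exact hx.1, ?_⟩
    rw [hht, hhs]
    exact hx.2
  refine ⟨fun x => ∑ i : Fin (k+1), h (pm (σ i) x), fun x hx => ?_, fun x hx => ?_⟩
  · apply harmonicAt_sum
    intro i _
    exact harmonicAt_comp_pm (σ i) h x (hh _ (hD i x hx))
  · unfold us
    refine Finset.sum_le_sum fun i _ => ?_
    have h1 := hmaj _ (hD i x hx)
    unfold uu at h1
    have h2 : pm (σ i) x 0 = x i.castSucc := by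
      have h3 : pm (σ i) x (Fin.castSucc 0) = x i.castSucc := by
        rw [pm_apply, hσc, Equiv.swap_apply_left]
      exact h3
    rw [h2] at h1
    exact h1

theorem crit {k : ℕ} {e : ℝ} (he : 0 < e) :
    ¬ ∃ h : EuclideanSpace ℝ (Fin (k+2)) → ℝ, HarmonicOnNhd h (Dm k e) ∧
      ∀ x ∈ Dm k e, uu e x ≤ h x := by
  rintro ⟨h₀, hh₀, hmaj₀⟩
  obtain ⟨h, hh, hmaj⟩ := symm_major h₀ hh₀ hmaj₀
  have hk : (0 : ℝ) ≤ k := Nat.cast_nonneg k
  have hpi := Real.pi_pos
  obtain ⟨K, hK⟩ : ∃ K : ℝ, K = (k : ℝ) + 1 := ⟨_, rfl⟩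
  have hK1 : 1 ≤ K := by linarith
  obtain ⟨δ, hδ⟩ : ∃ δ : ℝ, δ = min e (1 / 4) := ⟨_, rfl⟩
  have hδ0 : 0 < δ := by rw [hδ]; exact lt_min he (by norm_num)
  have hδ1 : δ ≤ 1 / 4 := by rw [hδ]; exact min_le_right _ _
  have hδe : δ ≤ e := by rw [hδ]; exact min_le_left _ _
  obtain ⟨A₁, Y₁, hA₁, hY₁3, hY₁⟩ := estS (k := k) (c := e) he he.le
  obtain ⟨A₂, Y₂, hA₂, hY₂3, hY₂⟩ := estS (k := k) (c := e - δ) he (by linarith)
  obtain ⟨A, hA⟩ : ∃ A : ℝ, A = A₁ + A₂ := ⟨_, rfl⟩
  have hA0 : 0 ≤ A := by linarith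
  obtain ⟨B, hB⟩ : ∃ B : ℝ, B = 4 * (1 + e) * Real.pi + 2 * Real.pi * (2 + e) + 4 + (1 + e) :=
    ⟨_, rfl⟩
  have hB1 : 0 < 4 * (1 + e) * Real.pi := by positivity
  have hB2 : 0 < 2 * Real.pi * (2 + e) := by positivity
  have hB0 : 0 < B := by linarith
  obtain ⟨Y₃, hY₃⟩ := Filter.eventually_atTop.1
    (Real.tendsto_log_atTop.eventually (ev_cond A δ B hA0 hδ0 hδ1 hB0))
  obtain ⟨Y, hY⟩ : ∃ Y : ℝ, Y = max (max Y₁ Y₂) Y₃ := ⟨_, rfl⟩
  have hYY₁ : Y₁ ≤ Y := by rw [hY]; exact (le_max_left _ _).trans (le_max_left _ _)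
  have hYY₂ : Y₂ ≤ Y := by rw [hY]; exact (le_max_right _ _).trans (le_max_left _ _)
  have hYY₃ : Y₃ ≤ Y := by rw [hY]; exact le_max_right _ _
  obtain ⟨C₁, hC₁0, hC₁⟩ := bound (k := k) he Y
    (f := fun x => GG k (1 + e) x - GG k (1 + (e - δ)) x)
    (fun x hx => (harmonic_GG (1 + e) hx).1.continuousAt.sub
      (harmonic_GG (1 + (e - δ)) hx).1.continuousAt)
  obtain ⟨C₂, hC₂0, hC₂⟩ := bound (k := k) he Y (f := HS k (1 + e))
    (fun x hx => (harmonic_HS (1 + e) hx).1.continuousAt)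
  obtain ⟨κ, hκ⟩ : ∃ κ : ℝ, κ = Real.pi * (2 + e) := ⟨_, rfl⟩
  have hκ0 : 0 < κ := by rw [hκ]; positivity
  obtain ⟨v, hv⟩ : ∃ v : ℝ → EuclideanSpace ℝ (Fin (k+2)) → ℝ, v = fun M =>
      κ⁻¹ • (((-(HS k (1 + e))) + fun _ => -C₂) +
        M • ((GG k (1 + e) - GG k (1 + (e - δ))) + fun _ => -C₁)) := ⟨_, rfl⟩
  have hva : ∀ M x, v M x = κ⁻¹ * ((-HS k (1 + e) x + -C₂) +
      M * ((GG k (1 + e) x - GG k (1 + (e - δ)) x) + -C₁)) := fun M x => by rw [hv]; rfl
  have hvh : ∀ M x, 1 < ht x → HarmonicAt (v M) x := by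
    intro M x hx
    rw [hv]
    exact (((harmonic_HS _ hx).neg.add (harmonicAt_const _)).add
      ((((harmonic_GG _ hx).sub (harmonic_GG _ hx)).add (harmonicAt_const _)).const_smul)).const_smul
  -- the comparison on the frontier
  have hfr : ∀ T : ℝ, Y < T → ∀ x ∈ frontier (DT k e T),
      v (Real.log (Real.log T) / 2) x ≤ us k e x := by
    intro T hT x hx
    obtain ⟨hxR, hcase⟩ := frontier_DT hx
    have hTc := hY₃ T (hYY₃.trans hT.le)
    obtain ⟨M, hM⟩ : ∃ M : ℝ, M = Real.log (Real.log T) / 2 := ⟨_, rfl⟩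
    have hM0 : 0 ≤ M := by linarith [hTc.2.1]
    rw [← hM, hva, inv_mul_le_iff₀ hκ0]
    have hu0 := us_nonneg k e x
    by_cases hxY : ht x ≤ Y
    · have h1 := (abs_le.1 (hC₂ x hxR hxY)).1
      have h2 := (abs_le.1 (hC₁ x hxR hxY)).2
      have h3 : M * ((GG k (1 + e) x - GG k (1 + (e - δ)) x) + -C₁) ≤ 0 :=
        mul_nonpos_of_nonneg_of_nonpos hM0 (by linarith)
      have h4 : 0 ≤ κ * us k e x := by positivity
      linarith
    · push Not at hxY
      obtain ⟨hE1, hE2⟩ := hY₁ x hxR (hYY₁.trans hxY.le)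
      obtain ⟨hE3, -⟩ := hY₂ x hxR (hYY₂.trans hxY.le)
      obtain ⟨hq1, hq2, hq3, hq4⟩ := hY₃ (ht x) (hYY₃.trans hxY.le)
      obtain ⟨y, hy⟩ : ∃ y, y = ht x := ⟨_, rfl⟩
      have hy3 : 3 ≤ y := by rw [hy]; exact hxR.1
      have hR2 := hxR.2
      rw [← hy] at hE1 hE2 hE3 hR2 hcase hxY hq1 hq2 hq3 hq4
      obtain ⟨L, hL⟩ : ∃ L, L = Real.log y := ⟨_, rfl⟩
      have hL1 : 1 ≤ L := by rw [hL]; exact one_le_log hy3
      have hSl := S_le he.le hy3 hL x
      rw [← hL] at hE1 hE2 hE3 hR2 hcase hq1 hq2 hq3 hq4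
      rw [← hK] at hE1 hE2 hE3 hR2 hcase hSl
      have hS0 := hs_nonneg x
      have hLe : 0 < L ^ e := by positivity
      have hLc : 0 < L ^ (e - δ) := by positivity
      have hLδ : L ^ e = L ^ (e - δ) * L ^ δ := by
        rw [← Real.rpow_add (by linarith), sub_add_cancel]
      have hLδ1 : 1 ≤ L ^ δ := Real.one_le_rpow hL1 hδ0.le
      obtain ⟨W, hW⟩ : ∃ W : ℝ, W = K * (y * (L * L ^ e)) := ⟨_, rfl⟩
      obtain ⟨W', hW'⟩ : ∃ W' : ℝ, W' = K * (y * (L * L ^ (e - δ))) := ⟨_, rfl⟩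
      have hW'0 : 0 < W' := by rw [hW']; positivity
      have hWW' : W = W' * L ^ δ := by rw [hW, hW', hLδ]; ring
      have hWle : W' ≤ W := by rw [hWW']; exact le_mul_of_one_le_right hW'0.le hLδ1
      rw [← hW] at hE1 hE2
      rw [← hW'] at hE3
      have hsq : 0 < Real.sqrt L := Real.sqrt_pos.2 (by linarith)
      have hA₁le : A₁ / Real.sqrt L ≤ A / Real.sqrt L :=
        div_le_div_of_nonneg_right (by linarith) hsq.le
      have hA₂le : A₂ / Real.sqrt L ≤ A / Real.sqrt L :=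
        div_le_div_of_nonneg_right (by linarith) hsq.le
      have hτ₀ : 0 ≤ A / Real.sqrt L := by positivity
      have hbb : (1 + e) * (Real.pi / 2) * (hs x * L ^ e) ≤ W := by
        have h1 : (1 + e) * (Real.pi / 2) * hs x ≤ K * (y * L) := by linarith
        calc (1 + e) * (Real.pi / 2) * (hs x * L ^ e) = ((1 + e) * (Real.pi / 2) * hs x) * L ^ e := by
              ring
          _ ≤ (K * (y * L)) * L ^ e := mul_le_mul_of_nonneg_right h1 hLe.le
          _ = W := by rw [hW]; ring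
      have hG'b : -(A₂ / Real.sqrt L * W') + (W' - (1 + (e - δ)) * (Real.pi / 2) * hs x *
          L ^ (e - δ)) ≤ GG k (1 + (e - δ)) x := by
        have := (abs_le.1 hE3).1
        linarith
      have hfin := cmp (τ₀ := A / Real.sqrt L) (W := W) (S := hs x * L ^ e)
        (b := W - (1 + e) * (Real.pi / 2) * (hs x * L ^ e)) (G := GG k (1 + e) x)
        (G' := GG k (1 + (e - δ)) x) (H := HS k (1 + e) x) (M := M) (U := us k e x) (L := L)
        (l := Real.log L) he (by linarith) hτ₀ hq3 (by linarith) (by positivity) (by linarith) rfl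
        (by
          have h1 : A₁ / Real.sqrt L * W ≤ A / Real.sqrt L * W :=
            mul_le_mul_of_nonneg_right hA₁le (by linarith)
          refine le_trans ?_ (hE1.trans h1)
          refine le_of_eq (congrArg abs ?_)
          ring)
        (by
          have h1 : A₁ / Real.sqrt L * W ≤ A / Real.sqrt L * W :=
            mul_le_mul_of_nonneg_right hA₁le (by linarith)
          refine le_trans ?_ (hE2.trans h1)
          refine le_of_eq (congrArg abs ?_)
          ring)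
        (by
          have h1 : A₂ / Real.sqrt L * W' ≤ A / Real.sqrt L * W :=
            mul_le_mul hA₂le hWle hW'0.le hτ₀
          have h2 : (1 + (e - δ)) * (Real.pi / 2) * hs x * L ^ (e - δ) ≤ W' := by
            have h3 : (1 + (e - δ)) * (Real.pi / 2) * hs x ≤ (1 + e) * (Real.pi / 2) * hs x := by
              apply mul_le_mul_of_nonneg_right _ hS0
              apply mul_le_mul_of_nonneg_right _ (by positivity)
              linarith
            have h4 : (1 + (e - δ)) * (Real.pi / 2) * hs x ≤ K * (y * L) := by linarith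
            calc (1 + (e - δ)) * (Real.pi / 2) * hs x * L ^ (e - δ) ≤
                K * (y * L) * L ^ (e - δ) := mul_le_mul_of_nonneg_right h4 hLc.le
              _ = W' := by rw [hW']; ring
          linarith)
        hM0
        (by
          rcases hcase with h0 | h0 | h0
          · exfalso
            linarith
          · left
            rw [hM, hL, h0]
          · right
            have h1 : (1 + e) * (Real.pi / 2) * hs x = K * (y * L) := by linarith
            have h2 : (1 + e) * (Real.pi / 2) * (hs x * L ^ e) = W := by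
              calc (1 + e) * (Real.pi / 2) * (hs x * L ^ e) =
                  ((1 + e) * (Real.pi / 2) * hs x) * L ^ e := by ring
                _ = W := by rw [h1, hW]; ring
            refine ⟨by linarith, ?_⟩
            have h3 := (abs_le.1 hE1).2
            have h4 : GG k (1 + e) x ≤ A₁ / Real.sqrt L * W := by linarith
            have h5 : (1 + (e - δ)) * (Real.pi / 2) * hs x * L ^ (e - δ) =
                (1 - δ / (1 + e)) * W' := by
              have h6 : Real.pi / 2 * hs x = K * (y * L) / (1 + e) := by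
                rw [eq_div_iff (by linarith)]
                linarith
              calc (1 + (e - δ)) * (Real.pi / 2) * hs x * L ^ (e - δ) =
                  (1 + (e - δ)) * (Real.pi / 2 * hs x) * L ^ (e - δ) := by ring
                _ = (1 - δ / (1 + e)) * W' := by
                    rw [h6, hW']
                    field_simp
                    ring
            have h7 : δ / B ≤ δ / (1 + e) :=
              div_le_div_of_nonneg_left hδ0.le (by linarith) (by linarith)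
            have h8 : (A / Real.sqrt L * (L ^ δ + 1)) * W' ≤ δ / (1 + e) * W' :=
              mul_le_mul_of_nonneg_right (hq4.trans h7) hW'0.le
            have h9 : A₁ / Real.sqrt L * W ≤ A / Real.sqrt L * (W' * L ^ δ) := by
              rw [hWW']
              exact mul_le_mul_of_nonneg_right hA₁le (by positivity)
            have h10 : A₂ / Real.sqrt L * W' ≤ A / Real.sqrt L * W' :=
              mul_le_mul_of_nonneg_right hA₂le hW'0.le
            rw [h5] at hG'b
            have h11 : W' - (1 - δ / (1 + e)) * W' = δ / (1 + e) * W' := by ring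
            have h12 : (A / Real.sqrt L * (L ^ δ + 1)) * W' =
                A / Real.sqrt L * (W' * L ^ δ) + A / Real.sqrt L * W' := by ring
            linarith)
        (by
          have h1 : W / L = K * (y * L ^ e) := by
            rw [hW]
            field_simp
          rw [h1]
          exact hSl)
        (by linarith) (by linarith) (by linarith)
      rw [← hκ] at hfin
      have h1 : 0 ≤ M * C₁ := by positivity
      have h2 : M * ((GG k (1 + e) x - GG k (1 + (e - δ)) x) + -C₁) =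
        M * (GG k (1 + e) x - GG k (1 + (e - δ)) x) - M * C₁ := by ring
      linarith
  -- the point on the axis
  obtain ⟨t₀, ⟨ht8, htC⟩, htY⟩ := ((((tendsto_rpow_atTop hδ0).comp
    Real.tendsto_log_atTop).eventually_ge_atTop 8).and
      (eventually_ge_atTop (2 * (C₁ + 1)))).and (eventually_gt_atTop Y) |>.exists
  have ht₀3 : 3 < t₀ := by linarith
  obtain ⟨x₀, hx₀⟩ : ∃ x₀ : EuclideanSpace ℝ (Fin (k+2)), x₀ = ax k t₀ := ⟨_, rfl⟩
  have hx₀h : ht x₀ = t₀ := by rw [hx₀, ht_ax]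
  have hx₀D : x₀ ∈ Dm k e := by rw [hx₀]; exact ax_mem ht₀3
  have hG1 : 1 ≤ (GG k (1 + e) x₀ - GG k (1 + (e - δ)) x₀) + -C₁ := by
    have h1 := (abs_le.1 (hY₁ x₀ (Dm_sub k e hx₀D) (by rw [hx₀h]; linarith)).1).1
    have h1' := (abs_le.1 (hY₂ x₀ (Dm_sub k e hx₀D) (by rw [hx₀h]; linarith)).1).2
    obtain ⟨-, hq2, hq3, -⟩ := hY₃ t₀ (by linarith)
    have h2 : hs x₀ = 0 := by rw [hx₀, hs_ax]
    rw [hx₀h, h2, ← hK] at h1 h1'
    simp only [mul_zero, zero_mul, sub_zero] at h1 h1'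
    change 8 ≤ Real.log t₀ ^ δ at ht8
    have hL1 := one_le_log ht₀3.le
    obtain ⟨L, hL⟩ : ∃ L, L = Real.log t₀ := ⟨_, rfl⟩
    rw [← hL] at h1 h1' hq2 hq3 ht8 hL1
    have hLδ : L ^ e = L ^ (e - δ) * L ^ δ := by
      rw [← Real.rpow_add (by linarith), sub_add_cancel]
    obtain ⟨W, hW⟩ : ∃ W : ℝ, W = K * (t₀ * (L * L ^ e)) := ⟨_, rfl⟩
    obtain ⟨W', hW'⟩ : ∃ W' : ℝ, W' = K * (t₀ * (L * L ^ (e - δ))) := ⟨_, rfl⟩
    have hLc : 0 < L ^ (e - δ) := by positivity
    have hW'0 : 0 < W' := by rw [hW']; positivity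
    have hWW' : W = W' * L ^ δ := by rw [hW, hW', hLδ]; ring
    have hW8 : 8 * W' ≤ W := by
      rw [hWW', mul_comm (8 : ℝ)]
      exact mul_le_mul_of_nonneg_left ht8 hW'0.le
    rw [← hW] at h1
    rw [← hW'] at h1'
    have hsq : 0 < Real.sqrt L := Real.sqrt_pos.2 (by linarith)
    have hτ : A / Real.sqrt L ≤ 1 / 9 := by
      have hτ₀ : 0 ≤ A / Real.sqrt L := by positivity
      have h3 : A / Real.sqrt L * 9 ≤ A / Real.sqrt L * (1 + 2 * Real.log L) :=
        mul_le_mul_of_nonneg_left (by linarith) hτ₀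
      linarith
    have hA₁le : A₁ / Real.sqrt L ≤ 1 / 9 :=
      (div_le_div_of_nonneg_right (by linarith) hsq.le).trans hτ
    have hA₂le : A₂ / Real.sqrt L ≤ 1 / 9 :=
      (div_le_div_of_nonneg_right (by linarith) hsq.le).trans hτ
    have h3 : A₁ / Real.sqrt L * W ≤ 1 / 9 * W := mul_le_mul_of_nonneg_right hA₁le (by linarith)
    have h4 : A₂ / Real.sqrt L * W' ≤ 1 / 9 * W' := mul_le_mul_of_nonneg_right hA₂le hW'0.le
    have h5 : t₀ ≤ W := by
      have h6 : 1 ≤ L ^ e := Real.one_le_rpow hL1 he.le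
      have h7 : 1 ≤ L * L ^ e := one_le_mul_of_one_le_of_one_le hL1 h6
      have h8 : t₀ ≤ t₀ * (L * L ^ e) := le_mul_of_one_le_right (by linarith) h7
      rw [hW]
      exact h8.trans (le_mul_of_one_le_left (by positivity) hK1)
    linarith
  -- the contradiction
  have hlim : Tendsto (fun T : ℝ => Real.log (Real.log T) / 2) atTop atTop := by
    apply Tendsto.atTop_div_const (by norm_num)
    exact Real.tendsto_log_atTop.comp Real.tendsto_log_atTop
  obtain ⟨T, hT1, hT2⟩ := ((hlim.eventually_gt_atTop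
    (κ * h x₀ + HS k (1 + e) x₀ + C₂)).and (eventually_gt_atTop t₀)).exists
  have h1 := dominate (T := T) he (continuous_us he.le) (hvh _) hh hmaj
    (hfr T (htY.trans hT2)) x₀ ⟨hx₀D, by show ht x₀ < T; rw [hx₀h]; exact hT2⟩
  rw [hva, inv_mul_le_iff₀ hκ0] at h1
  have hM0 : 0 ≤ Real.log (Real.log T) / 2 := by
    have := (hY₃ T (by linarith)).2.1
    linarith
  have h2 : Real.log (Real.log T) / 2 ≤
      Real.log (Real.log T) / 2 * ((GG k (1 + e) x₀ - GG k (1 + (e - δ)) x₀) + -C₁) :=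
    le_mul_of_one_le_right hM0 hG1
  linarith

end Pool.Agent.Y61.LP
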